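import Pool.Agent.H87.KX.MAR

/-!
# One mate step towards a fixed base time: energy and pathwise certificates

`en`: collision energy of a reference measure of steps `(t, R)` at the cell `s` of the base time.
`en_sum`: it is small in the mean over `s`, whatever the dependence of `R` on `t` is.
`marp_core`: a chain whose steps are dominated by such reference measures, given the line and the
exact base time, has small energy given the exact base time.
`cert`: small energy on an event gives a bound for the conditional probability of the actual value,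
outside a small set of places.
-/

set_option autoImplicit false

namespace Pool.MARP

open Finset Real
open Pool.Agent.H49.Ent Pool.Agent.H32.Dense Pool.STK Pool.KAF Pool.KAL Pool.LJ Pool.KX

open Classical in
/-- Collision energy at the cell `s` of the measure `u` of steps. -/
noncomputable def en (δ : ℝ) (M : ℕ) (S : Finset (ℤ × ℝ)) (u : ℤ × ℝ → ℝ) (s : ℤ) : ℝ :=
  ∑ z ∈ S, ∑ z' ∈ S, u z * u z' * (if mnr δ M z s z' s then 1 else 0)

theorem en_nonneg {δ : ℝ} {M : ℕ} {S : Finset (ℤ × ℝ)} {u : ℤ × ℝ → ℝ} (hu : ∀ z ∈ S, 0 ≤ u z)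
    (s : ℤ) : 0 ≤ en δ M S u s := by
  classical
  refine Finset.sum_nonneg fun z hz => Finset.sum_nonneg fun z' hz' => ?_
  have := mul_nonneg (hu z hz) (hu z' hz')
  split_ifs
  · simpa using this
  · simp

/-- The energy is small in the mean over the cells of the base time. -/
theorem en_sum {δ : ℝ} (hδ : 0 < δ) (hδ1 : δ ≤ 1) {M N : ℕ} (hM : 1 ≤ M) (hNM : N ≤ M)
    {A1 A : ℤ} {D : ℝ} {S : Finset (ℤ × ℝ)} {u : ℤ × ℝ → ℝ} (hu : ∀ z ∈ S, 0 ≤ u z)
    (hS : ∀ z ∈ S, z.1 ∈ Finset.Ico A1 (A1 + (M : ℤ))) (h1 : ∑ z ∈ S, u z ≤ 1) (hD0 : 0 ≤ D)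
    (hD : ∀ t, ∑ z ∈ S with z.1 = t, u z ≤ D / M) :
    ∑ s ∈ Finset.Ico A (A + (N : ℤ)), en δ M S u s ≤ 4104 * D * (1 + Real.log M) / δ := by
  classical
  have hM' : (0 : ℝ) < M := by exact_mod_cast hM
  have hl : 0 ≤ Real.log M := Real.log_nonneg (by exact_mod_cast hM)
  have e1 : ∑ s ∈ Finset.Ico A (A + (N : ℤ)), en δ M S u s =
      ∑ z ∈ S, ∑ z' ∈ S, u z * u z' *
        ∑ s ∈ Finset.Ico A (A + (N : ℤ)), (if mnr δ M z s z' s then (1 : ℝ) else 0) := by
    unfold en
    rw [Finset.sum_comm]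
    refine Finset.sum_congr rfl fun z _ => ?_
    rw [Finset.sum_comm]
    refine Finset.sum_congr rfl fun z' _ => ?_
    rw [Finset.mul_sum]
  have e2 : ∀ z z' : ℤ × ℝ, ∑ s ∈ Finset.Ico A (A + (N : ℤ)),
      (if mnr δ M z s z' s then (1 : ℝ) else 0) ≤
      1026 * M / δ * (1 / max |(z.1 : ℝ) - z'.1| 1) := by
    intro z z'
    refine le_trans (Finset.sum_le_sum fun s hs => ?_) (mnr_count (A := A) hδ hδ1 hM hNM z z')
    refine Finset.single_le_sum (f := fun t' => if mnr δ M z s z' t' then (1 : ℝ) else 0)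
      (fun t' _ => ?_) hs
    positivity
  have e3 : ∀ z ∈ S, ∑ z' ∈ S, u z' * (1 / max |(z.1 : ℝ) - z'.1| 1) ≤
      D / M * (4 * (1 + Real.log M)) := by
    intro z hz
    have h2 : ∑ z' ∈ S, u z' * (1 / max |(z.1 : ℝ) - z'.1| 1) =
        ∑ t ∈ Finset.Ico A1 (A1 + (M : ℤ)), ∑ z' ∈ S with z'.1 = t,
          u z' * (1 / max |(z.1 : ℝ) - z'.1| 1) :=
      (Finset.sum_fiberwise_of_maps_to hS _).symm
    rw [h2]
    have h3 : ∀ t ∈ Finset.Ico A1 (A1 + (M : ℤ)), ∑ z' ∈ S with z'.1 = t,
        u z' * (1 / max |(z.1 : ℝ) - z'.1| 1) ≤ D / M * (1 / max |(z.1 : ℝ) - t| 1) := by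
      intro t _
      have h4 : ∑ z' ∈ S with z'.1 = t, u z' * (1 / max |(z.1 : ℝ) - z'.1| 1) =
          (∑ z' ∈ S with z'.1 = t, u z') * (1 / max |(z.1 : ℝ) - t| 1) := by
        rw [Finset.sum_mul]
        refine Finset.sum_congr rfl fun z' hz' => ?_
        rw [(Finset.mem_filter.mp hz').2]
      rw [h4]
      refine mul_le_mul_of_nonneg_right (hD t) ?_
      have : (0 : ℝ) < max |(z.1 : ℝ) - t| 1 := lt_of_lt_of_le one_pos (le_max_right _ _)
      positivity
    refine (Finset.sum_le_sum h3).trans ?_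
    rw [← Finset.mul_sum]
    exact mul_le_mul_of_nonneg_left (harmZ M hM A1 z.1 (hS z hz)) (by positivity)
  rw [e1]
  calc ∑ z ∈ S, ∑ z' ∈ S, u z * u z' *
        ∑ s ∈ Finset.Ico A (A + (N : ℤ)), (if mnr δ M z s z' s then (1 : ℝ) else 0)
      ≤ ∑ z ∈ S, ∑ z' ∈ S, u z * u z' * (1026 * M / δ * (1 / max |(z.1 : ℝ) - z'.1| 1)) :=
        Finset.sum_le_sum fun z hz => Finset.sum_le_sum fun z' hz' =>
          mul_le_mul_of_nonneg_left (e2 z z') (mul_nonneg (hu z hz) (hu z' hz'))
    _ = ∑ z ∈ S, u z * (1026 * M / δ) *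
          ∑ z' ∈ S, u z' * (1 / max |(z.1 : ℝ) - z'.1| 1) := by
        refine Finset.sum_congr rfl fun z _ => ?_
        rw [Finset.mul_sum]
        refine Finset.sum_congr rfl fun z' _ => ?_
        ring
    _ ≤ ∑ z ∈ S, u z * (1026 * M / δ) * (D / M * (4 * (1 + Real.log M))) :=
        Finset.sum_le_sum fun z hz => mul_le_mul_of_nonneg_left (e3 z hz)
          (mul_nonneg (hu z hz) (by positivity))
    _ = (∑ z ∈ S, u z) * (4104 * D * (1 + Real.log M) / δ) := by
        rw [Finset.sum_mul]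
        refine Finset.sum_congr rfl fun z _ => ?_
        field_simp
        ring
    _ ≤ 1 * (4104 * D * (1 + Real.log M) / δ) :=
        mul_le_mul_of_nonneg_right h1 (by positivity)
    _ = _ := one_mul _

/-- Few cells have a large energy. -/
theorem bad_cells {δ : ℝ} (hδ : 0 < δ) (hδ1 : δ ≤ 1) {M N : ℕ} (hM : 1 ≤ M) (hNM : N ≤ M)
    {A1 A : ℤ} {D : ℝ} {S : Finset (ℤ × ℝ)} {u : ℤ × ℝ → ℝ} (hu : ∀ z ∈ S, 0 ≤ u z)
    (hS : ∀ z ∈ S, z.1 ∈ Finset.Ico A1 (A1 + (M : ℤ))) (h1 : ∑ z ∈ S, u z ≤ 1) (hD0 : 0 ≤ D)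
    (hD : ∀ t, ∑ z ∈ S with z.1 = t, u z ≤ D / M) (θ : ℝ) :
    (((Finset.Ico A (A + (N : ℤ))).filter fun s => θ < en δ M S u s).card : ℝ) * θ ≤
      4104 * D * (1 + Real.log M) / δ := by
  classical
  refine le_trans ?_ (en_sum (A := A) hδ hδ1 hM hNM hu hS h1 hD0 hD)
  rw [← nsmul_eq_mul, ← Finset.sum_const]
  calc ∑ _s ∈ (Finset.Ico A (A + (N : ℤ))).filter (fun s => θ < en δ M S u s), θ
      ≤ ∑ s ∈ (Finset.Ico A (A + (N : ℤ))).filter (fun s => θ < en δ M S u s), en δ M S u s :=
        Finset.sum_le_sum fun s hs => (Finset.mem_filter.mp hs).2.le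
    _ ≤ _ := Finset.sum_le_sum_of_subset_of_nonneg (Finset.filter_subset _ _)
        fun s _ _ => en_nonneg hu s

open Classical in
/-- The law restricted to an event (not normalised). -/
noncomputable def rG {W : Type} (q : W → ℝ) (G : Set W) (w : W) : ℝ := if w ∈ G then q w else 0

variable {W σ Λ ν : Type} [Fintype W] {q : W → ℝ}

omit [Fintype W] in
theorem rG_nonneg (hq : ∀ w, 0 ≤ q w) (G : Set W) (w : W) : 0 ≤ rG q G w := by
  unfold rG
  split_ifs
  exacts [hq w, le_rfl]

omit [Fintype W] in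
theorem rG_le (hq : ∀ w, 0 ≤ q w) (G : Set W) (w : W) : rG q G w ≤ q w := by
  unfold rG
  split_ifs
  exacts [le_rfl, hq w]

theorem Pr_sum (q : W → ℝ) (E : Set W) [DecidablePred (· ∈ E)] :
    Pr q E = ∑ w, if w ∈ E then q w else 0 := by
  unfold Pr law
  refine Finset.sum_congr rfl fun w _ => ?_
  by_cases h : w ∈ E
  · rw [if_pos h, if_pos (by simpa using h)]
  · rw [if_neg h, if_neg (by simpa using h)]

theorem law_rG_le (hq : ∀ w, 0 ≤ q w) (G : Set W) {S : Type} (X : W → S) (x : S) :
    law (rG q G) X x ≤ law q X x := by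
  classical
  unfold law
  refine Finset.sum_le_sum fun w _ => ?_
  split_ifs
  exacts [rG_le hq G w, le_rfl]

/-- Summation along the values of a label. -/
theorem sum_fib {ξ : Type} {g : W → ℝ} {Z : W → ξ} {V : Finset ξ} (h : ∀ w, g w ≠ 0 → Z w ∈ V)
    (F : ξ → ℝ) : ∑ w, g w * F (Z w) = ∑ v ∈ V, law g Z v * F v := by
  classical
  unfold law
  have e1 : ∀ v ∈ V, (∑ w, if Z w = v then g w else 0) * F v =
      ∑ w, (if Z w = v then g w * F v else 0) := by
    intro v _
    rw [Finset.sum_mul]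
    refine Finset.sum_congr rfl fun w _ => ?_
    split_ifs <;> simp
  rw [Finset.sum_congr rfl e1, Finset.sum_comm]
  refine Finset.sum_congr rfl fun w _ => ?_
  rw [Finset.sum_ite_eq]
  split_ifs with h1
  · rfl
  · have : g w = 0 := by
      by_contra h2
      exact h1 (h w h2)
    rw [this, zero_mul]

theorem sum_law_image {ξ : Type} [DecidableEq ξ] (g : W → ℝ) (Z : W → ξ) :
    ∑ v ∈ univ.image Z, law g Z v = ∑ w, g w := by
  have h := sum_fib (g := g) (Z := Z) (V := univ.image Z)
    (fun w _ => Finset.mem_image_of_mem Z (Finset.mem_univ w)) (fun _ => (1 : ℝ))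
  simpa using h.symm

/-- Small energy on an event gives certificates. -/
theorem cert (hq : ∀ w, 0 ≤ q w) (G : Set W) (s : W → σ) (n : W → ν) {E τ1 τ2 : ℝ}
    (hE0 : 0 ≤ E) (h1 : 0 < τ1) (h2 : 0 < τ2)
    (hE : ∀ w, (open Classical in ∑ j ∈ univ.image n,
      (law (rG q G) (fun w => (s w, n w)) (s w, j)) ^ 2) ≤ E * (law q s (s w)) ^ 2) :
    Pr q {w | w ∈ G ∧ E / (τ1 * τ2) * law q s (s w) < law q (fun w => (s w, n w)) (s w, n w)} ≤
      (τ1 + τ2) * ∑ w, q w := by
  classical
  have hr := rG_nonneg hq G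
  set r := rG q G with hrdef
  set Y : W → σ × ν := fun w => (s w, n w) with hY
  have hmem : ∀ w, Y w ∈ univ.image Y := fun w => Finset.mem_image_of_mem Y (Finset.mem_univ w)
  set P1 : σ × ν → Prop := fun v => E / τ1 * law q s v.1 < law r Y v with hP1
  set P2 : σ × ν → Prop := fun v => law r Y v < τ2 * law q Y v with hP2
  have hsplit : Pr q {w | w ∈ G ∧ E / (τ1 * τ2) * law q s (s w) <
      law q (fun w => (s w, n w)) (s w, n w)} ≤
      ∑ w, r w * (if P1 (Y w) then 1 else 0) + ∑ w, r w * (if P2 (Y w) then 1 else 0) := by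
    rw [Pr_sum, ← Finset.sum_add_distrib]
    refine Finset.sum_le_sum fun w _ => ?_
    by_cases hw : w ∈ G ∧ E / (τ1 * τ2) * law q s (s w) <
      law q (fun w => (s w, n w)) (s w, n w)
    · have hrw : r w = q w := by
        simp [hrdef, rG, hw.1]
      have hor : P1 (Y w) ∨ P2 (Y w) := by
        by_contra hno
        push Not at hno
        obtain ⟨ha, hb⟩ := hno
        simp only [hP1, hP2, not_lt] at ha hb
        have hc := hw.2
        have hd : law q Y (Y w) ≤ E / (τ1 * τ2) * law q s (s w) := by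
          have he : τ2 * law q Y (Y w) ≤ E / τ1 * law q s (s w) := hb.trans ha
          have hf : E / (τ1 * τ2) * law q s (s w) = (E / τ1 * law q s (s w)) / τ2 := by
            field_simp
          rw [hf, le_div_iff₀ h2]
          linarith
        exact absurd hc (not_lt.mpr hd)
      rw [if_pos (show w ∈ {w | w ∈ G ∧ E / (τ1 * τ2) * law q s (s w) <
          law q (fun w => (s w, n w)) (s w, n w)} from hw), hrw]
      have := hq w
      rcases hor with h | h
      · rw [if_pos h, mul_one]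
        refine le_add_of_nonneg_right (mul_nonneg this ?_)
        split_ifs <;> norm_num
      · rw [if_pos h, mul_one]
        refine le_add_of_nonneg_left (mul_nonneg this ?_)
        split_ifs <;> norm_num
    · rw [if_neg (show ¬ w ∈ {w | w ∈ G ∧ E / (τ1 * τ2) * law q s (s w) <
          law q (fun w => (s w, n w)) (s w, n w)} from hw)]
      have := hr w
      refine add_nonneg (mul_nonneg this ?_) (mul_nonneg this ?_)
      · split_ifs <;> norm_num
      · split_ifs <;> norm_num
  refine hsplit.trans ?_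
  rw [add_mul]
  refine add_le_add ?_ ?_
  · -- large atoms on the event
    rw [sum_fib (Z := Y) (V := univ.image Y) (fun w _ => hmem w)
      (fun v => if P1 v then (1 : ℝ) else 0)]
    have hb : ∀ v ∈ univ.image Y, law r Y v * (if P1 v then (1 : ℝ) else 0) ≤
        τ1 / E * (law r Y v ^ 2 / law q s v.1) := by
      intro v hv
      obtain ⟨w, -, rfl⟩ := Finset.mem_image.mp hv
      have hA0 : 0 ≤ law q s (Y w).1 := law_nonneg hq _ _
      have ha0 : 0 ≤ law r Y (Y w) := law_nonneg hr _ _
      have hnn : 0 ≤ τ1 / E * (law r Y (Y w) ^ 2 / law q s (Y w).1) := by positivity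
      by_cases hp : P1 (Y w)
      · rw [if_pos hp, mul_one]
        have hp' : E / τ1 * law q s (s w) < law r Y (Y w) := hp
        have hapos : 0 < law r Y (Y w) := lt_of_le_of_lt (by positivity) hp'
        have hle : law r Y (Y w) ^ 2 ≤ E * (law q s (s w)) ^ 2 := by
          refine le_trans ?_ (hE w)
          exact Finset.single_le_sum (f := fun j => (law r Y (s w, j)) ^ 2)
            (fun j _ => sq_nonneg _) (Finset.mem_image_of_mem n (Finset.mem_univ w))
        have hpos2 : 0 < E * (law q s (s w)) ^ 2 := lt_of_lt_of_le (by positivity) hle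
        have hEpos : 0 < E := by
          rcases hE0.eq_or_lt with h0 | h0
          · rw [← h0] at hpos2
            simp at hpos2
          · exact h0
        have hApos : 0 < law q s (s w) := by
          rcases (law_nonneg hq s (s w)).eq_or_lt with h0 | h0
          · rw [← h0] at hpos2
            simp at hpos2
          · exact h0
        have hs : (Y w).1 = s w := rfl
        rw [hs, div_mul_div_comm, le_div_iff₀ (by positivity)]
        have h5 : E * law q s (s w) ≤ τ1 * law r Y (Y w) := by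
          have := (div_mul_eq_mul_div E τ1 (law q s (s w))) ▸ hp'.le
          rw [div_le_iff₀ h1] at this
          linarith
        calc law r Y (Y w) * (E * law q s (s w)) ≤ law r Y (Y w) * (τ1 * law r Y (Y w)) :=
              mul_le_mul_of_nonneg_left h5 ha0
          _ = τ1 * law r Y (Y w) ^ 2 := by ring
      · rw [if_neg hp, mul_zero]
        exact hnn
    refine (Finset.sum_le_sum hb).trans ?_
    have hsub : univ.image Y ⊆ (univ.image s) ×ˢ (univ.image n) := by
      intro v hv
      obtain ⟨w, -, rfl⟩ := Finset.mem_image.mp hv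
      exact Finset.mem_product.mpr ⟨Finset.mem_image_of_mem s (Finset.mem_univ w),
        Finset.mem_image_of_mem n (Finset.mem_univ w)⟩
    refine (Finset.sum_le_sum_of_subset_of_nonneg hsub fun v _ _ => ?_).trans ?_
    · have := law_nonneg hq s v.1
      positivity
    rw [Finset.sum_product, ← sum_law_image q s, Finset.mul_sum]
    refine Finset.sum_le_sum fun c hc => ?_
    obtain ⟨w, -, rfl⟩ := Finset.mem_image.mp hc
    have h6 : ∑ j ∈ univ.image n, τ1 / E * (law r Y (s w, j) ^ 2 / law q s (s w)) =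
        τ1 / E / law q s (s w) * ∑ j ∈ univ.image n, law r Y (s w, j) ^ 2 := by
      rw [Finset.mul_sum]
      refine Finset.sum_congr rfl fun j _ => ?_
      ring
    have hA0 : 0 ≤ law q s (s w) := law_nonneg hq _ _
    show ∑ j ∈ univ.image n, τ1 / E * (law r Y (s w, j) ^ 2 / law q s (s w)) ≤ τ1 * law q s (s w)
    rw [h6]
    calc τ1 / E / law q s (s w) * ∑ j ∈ univ.image n, law r Y (s w, j) ^ 2
        ≤ τ1 / E / law q s (s w) * (E * (law q s (s w)) ^ 2) :=
          mul_le_mul_of_nonneg_left (hE w) (by positivity)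
      _ ≤ τ1 * law q s (s w) := by
          rcases hE0.eq_or_lt with h0 | h0
          · rw [← h0]
            simp
            positivity
          rcases hA0.eq_or_lt with h3 | h3
          · rw [← h3]
            simp
          · have : τ1 / E / law q s (s w) * (E * (law q s (s w)) ^ 2) = τ1 * law q s (s w) := by
              field_simp
            rw [this]
  · -- values which are rarely in the event
    rw [sum_fib (Z := Y) (V := univ.image Y) (fun w _ => hmem w)
      (fun v => if P2 v then (1 : ℝ) else 0), ← sum_law_image q Y, Finset.mul_sum]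
    refine Finset.sum_le_sum fun v _ => ?_
    have h0 := law_nonneg hq Y v
    by_cases hp : P2 v
    · rw [if_pos hp, mul_one]
      exact le_of_lt hp
    · rw [if_neg hp, mul_zero]
      positivity

/-- The energy of the chain given the exact base time, line by line. -/
theorem marp_line (hq : ∀ w, 0 ≤ q w) (G : Set W) (l : W → Λ) (s : W → σ) (cell : σ → ℤ)
    (T1 : W → ℤ) (R : W → ℝ) (n : W → ℤ) (x0 : Λ → σ → ℝ) (S : Λ → Finset (ℤ × ℝ))
    (U : Λ → ℤ × ℝ → ℝ) (a : Λ → σ → ℝ) (θ : Λ → σ → ℝ) {δ κ : ℝ} {M : ℕ} (hκ : 0 ≤ κ)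
    (hθ : ∀ ζ c, 0 ≤ θ ζ c)
    (hU : ∀ ζ, ∀ z ∈ S ζ, 0 ≤ U ζ z) (ha : ∀ ζ c, 0 ≤ a ζ c)
    (haS : ∀ w, (open Classical in ∑ ζ ∈ univ.image l, a ζ (s w)) ≤ law q s (s w))
    (hS : ∀ w ∈ G, 0 < q w → (T1 w, R w) ∈ S (l w))
    (hdom : ∀ w ∈ G, 0 < q w →
      law (rG q G) (fun w => ((l w, s w), (T1 w, R w))) ((l w, s w), (T1 w, R w)) ≤
        κ * a (l w) (s w) * U (l w) (T1 w, R w))
    (hgood : ∀ w ∈ G, 0 < q w → en δ M (S (l w)) (U (l w)) (cell (s w)) ≤ θ (l w) (s w))
    (hpos : ∀ w ∈ G, 0 < q w → δ ≤ |R w| ∧ |(cell (s w) : ℝ) - T1 w| ≤ M ∧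
      |(n w : ℝ) - (x0 (l w) (s w) + ((cell (s w) : ℝ) - T1 w) * R w)| ≤ 64) (w0 : W) :
    (open Classical in ∑ j ∈ univ.image n,
      (law (rG q G) (fun w => (s w, n w)) (s w0, j)) ^ 2) ≤
      κ ^ 2 * (law q s (s w0) * (open Classical in ∑ ζ ∈ univ.image l,
        a ζ (s w0) * θ ζ (s w0))) := by
  classical
  have hr := rG_nonneg hq G
  have hrpos : ∀ w, rG q G w ≠ 0 → w ∈ G ∧ 0 < q w := by
    intro w hw
    unfold rG at hw
    by_cases h : w ∈ G
    · rw [if_pos h] at hw
      exact ⟨h, lt_of_le_of_ne (hq w) (Ne.symm hw)⟩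
    · rw [if_neg h] at hw
      exact absurd rfl hw
  set r := rG q G with hrdef
  set c := s w0 with hc
  -- the part of the line `ζ`
  set g : Λ → W → ℝ := fun ζ w => if l w = ζ ∧ s w = c then r w else 0 with hg
  have hg0 : ∀ ζ w, 0 ≤ g ζ w := fun ζ w => by
    simp only [hg]
    split_ifs
    exacts [hr w, le_rfl]
  have hgne : ∀ ζ w, g ζ w ≠ 0 → w ∈ G ∧ 0 < q w ∧ l w = ζ ∧ s w = c := by
    intro ζ w hw
    simp only [hg] at hw
    split_ifs at hw with h
    · exact ⟨(hrpos w hw).1, (hrpos w hw).2, h.1, h.2⟩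
    · exact absurd rfl hw
  set b : Λ → ℤ → ℝ := fun ζ j => law (g ζ) n j with hb
  have hb0 : ∀ ζ j, 0 ≤ b ζ j := fun ζ j => law_nonneg (hg0 ζ) _ _
  have hsum : ∀ j, law r (fun w => (s w, n w)) (c, j) = ∑ ζ ∈ univ.image l, b ζ j := by
    intro j
    simp only [hb, hg, law]
    rw [Finset.sum_comm]
    refine Finset.sum_congr rfl fun w _ => ?_
    have h1 : ∀ ζ ∈ univ.image l, (if n w = j then (if l w = ζ ∧ s w = c then r w else 0) else 0) =
        if l w = ζ then (if s w = c ∧ n w = j then r w else 0) else 0 := by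
      intro ζ _
      by_cases h1 : n w = j <;> by_cases h2 : l w = ζ <;> by_cases h3 : s w = c <;>
        simp [h1, h2, h3]
    rw [Finset.sum_congr rfl h1, Finset.sum_ite_eq,
      if_pos (Finset.mem_image_of_mem l (Finset.mem_univ w))]
    by_cases h1 : n w = j <;> by_cases h3 : s w = c <;> simp [h1, h3]
  -- one line
  have hone : ∀ ζ, ∑ j ∈ univ.image n, b ζ j ^ 2 ≤ κ ^ 2 * θ ζ c * a ζ c ^ 2 := by
    intro ζ
    have hθc := hθ ζ c
    have hR0 : 0 ≤ κ ^ 2 * θ ζ c * a ζ c ^ 2 := by positivity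
    by_cases hex : ∃ w, g ζ w ≠ 0
    · obtain ⟨w1, hw1⟩ := hex
      obtain ⟨hG1, hq1, hl1, hs1⟩ := hgne ζ w1 hw1
      set Z : W → ℤ × ℝ := fun w => (T1 w, R w) with hZ
      set f : ℤ × ℝ → ℝ := fun z => law (g ζ) Z z with hf
      have hf0 : ∀ z, 0 ≤ f z := fun z => law_nonneg (hg0 ζ) _ _
      have hmem : ∀ w, g ζ w ≠ 0 → Z w ∈ S ζ := by
        intro w hw
        obtain ⟨h1, h2, h3, h4⟩ := hgne ζ w hw
        rw [← h3]
        exact hS w h1 h2
      have hfU : ∀ z ∈ S ζ, f z ≤ κ * a ζ c * U ζ z := by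
        intro z hz
        by_cases hex2 : ∃ w, g ζ w ≠ 0 ∧ Z w = z
        · obtain ⟨w, hw, rfl⟩ := hex2
          obtain ⟨h1, h2, h3, h4⟩ := hgne ζ w hw
          have h5 := hdom w h1 h2
          rw [h3, h4] at h5
          refine le_trans (le_of_eq ?_) h5
          simp only [hf, hg, law, hZ]
          refine Finset.sum_congr rfl fun w' _ => ?_
          simp only [Prod.mk.injEq]
          by_cases h8 : T1 w' = T1 w ∧ R w' = R w
          · by_cases h6 : l w' = ζ ∧ s w' = c
            · rw [if_pos h8, if_pos h6, if_pos ⟨h6, h8⟩]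
            · rw [if_pos h8, if_neg h6, if_neg (fun h => h6 h.1)]
          · rw [if_neg h8, if_neg (fun h => h8 h.2)]
        · have h5 : f z = 0 := by
            simp only [hf, law]
            refine Finset.sum_eq_zero fun w _ => ?_
            split_ifs with h6
            · by_contra h7
              exact hex2 ⟨w, h7, h6⟩
            · rfl
          rw [h5]
          exact mul_nonneg (mul_nonneg hκ (ha ζ c)) (hU ζ z hz)
      have hcol : ∑ j ∈ univ.image n, b ζ j ^ 2 ≤
          ∑ w, g ζ w * ∑ w', g ζ w' *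
            (if mnr δ M (Z w) (cell c) (Z w') (cell c) then 1 else 0) := by
        have h1 : ∑ j ∈ univ.image n, b ζ j ^ 2 = ∑ w, g ζ w * b ζ (n w) := by
          rw [sum_fib (g := g ζ) (Z := n) (V := univ.image n)
            (fun w _ => Finset.mem_image_of_mem n (Finset.mem_univ w)) (fun j => b ζ j)]
          refine Finset.sum_congr rfl fun j _ => ?_
          simp only [hb]
          ring
        rw [h1]
        refine Finset.sum_le_sum fun w _ => ?_
        by_cases hw : g ζ w = 0
        · rw [hw, zero_mul, zero_mul]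
        refine mul_le_mul_of_nonneg_left ?_ (hg0 ζ w)
        simp only [hb, law]
        refine Finset.sum_le_sum fun w' _ => ?_
        by_cases hw' : g ζ w' = 0
        · rw [hw', zero_mul]
          split_ifs <;> exact le_rfl
        split_ifs with h2 h3 h3
        · rw [mul_one]
        · exfalso
          apply h3
          obtain ⟨k1, k2, k3, k4⟩ := hgne ζ w hw
          obtain ⟨k1', k2', k3', k4'⟩ := hgne ζ w' hw'
          obtain ⟨a1, a2, a3⟩ := hpos w k1 k2
          obtain ⟨b1, b2, b3⟩ := hpos w' k1' k2'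
          rw [k4] at a2
          rw [k4'] at b2
          rw [k3, k4] at a3
          rw [k3', k4', h2] at b3
          refine ⟨⟨a1, b1, a2, b2⟩, rfl, ?_⟩
          show |((cell c : ℝ) - T1 w) * R w - ((cell c : ℝ) - T1 w') * R w'| ≤ 128
          have e1 : ((cell c : ℝ) - T1 w) * R w - ((cell c : ℝ) - T1 w') * R w' =
              ((n w : ℝ) - (x0 ζ c + ((cell c : ℝ) - T1 w') * R w')) -
              ((n w : ℝ) - (x0 ζ c + ((cell c : ℝ) - T1 w) * R w)) := by ring
          rw [e1]
          refine (abs_sub _ _).trans ?_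
          linarith
        · rw [mul_one]
          exact hg0 ζ w'
        · rw [mul_zero]
      refine hcol.trans ?_
      have h2 : ∑ w, g ζ w * ∑ w', g ζ w' *
            (if mnr δ M (Z w) (cell c) (Z w') (cell c) then (1 : ℝ) else 0) =
          ∑ z ∈ S ζ, f z * ∑ z' ∈ S ζ, f z' *
            (if mnr δ M z (cell c) z' (cell c) then 1 else 0) := by
        rw [← sum_fib (g := g ζ) (Z := Z) (V := S ζ) hmem
          (fun z => ∑ z' ∈ S ζ, f z' * (if mnr δ M z (cell c) z' (cell c) then 1 else 0))]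
        refine Finset.sum_congr rfl fun w _ => ?_
        rw [sum_fib (g := g ζ) (Z := Z) (V := S ζ) hmem
          (fun z' => if mnr δ M (Z w) (cell c) z' (cell c) then 1 else 0)]
      rw [h2]
      calc ∑ z ∈ S ζ, f z * ∑ z' ∈ S ζ, f z' *
            (if mnr δ M z (cell c) z' (cell c) then (1 : ℝ) else 0)
          ≤ ∑ z ∈ S ζ, (κ * a ζ c * U ζ z) * ∑ z' ∈ S ζ, (κ * a ζ c * U ζ z') *
            (if mnr δ M z (cell c) z' (cell c) then 1 else 0) := by
            refine Finset.sum_le_sum fun z hz => ?_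
            refine mul_le_mul (hfU z hz) (Finset.sum_le_sum fun z' hz' => ?_)
              (Finset.sum_nonneg fun z' _ => ?_) ((hf0 z).trans (hfU z hz))
            · refine mul_le_mul_of_nonneg_right (hfU z' hz') ?_
              positivity
            · have := hf0 z'
              positivity
        _ = κ ^ 2 * a ζ c ^ 2 * en δ M (S ζ) (U ζ) (cell c) := by
            unfold en
            rw [Finset.mul_sum]
            refine Finset.sum_congr rfl fun z _ => ?_
            rw [Finset.mul_sum, Finset.mul_sum]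
            refine Finset.sum_congr rfl fun z' _ => ?_
            ring
        _ ≤ κ ^ 2 * a ζ c ^ 2 * θ ζ c := by
            refine mul_le_mul_of_nonneg_left ?_ (by positivity)
            have h3 := hgood w1 hG1 hq1
            rwa [hl1, hs1] at h3
        _ = κ ^ 2 * θ ζ c * a ζ c ^ 2 := by ring
    · push Not at hex
      have h1 : ∀ j, b ζ j = 0 := by
        intro j
        simp only [hb, law]
        refine Finset.sum_eq_zero fun w _ => ?_
        rw [hex w]
        split_ifs <;> rfl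
      simp only [h1]
      simpa using hR0
  -- all lines
  set A : ℝ := ∑ ζ ∈ univ.image l, a ζ c with hA
  have hA0 : 0 ≤ A := Finset.sum_nonneg fun ζ _ => ha ζ c
  have hbz : ∀ ζ j, j ∈ univ.image n → a ζ c = 0 → b ζ j = 0 := by
    intro ζ j hj h0
    have h1 := hone ζ
    rw [h0] at h1
    have h2 : b ζ j ^ 2 ≤ 0 := by
      refine le_trans (Finset.single_le_sum (f := fun j => b ζ j ^ 2)
        (fun j _ => sq_nonneg _) hj) (h1.trans (by simp))
    have h3 := sq_nonneg (b ζ j)
    exact pow_eq_zero_iff (two_ne_zero) |>.mp (le_antisymm h2 h3)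
  have hcs : ∀ j ∈ univ.image n, (∑ ζ ∈ univ.image l, b ζ j) ^ 2 ≤
      A * ∑ ζ ∈ univ.image l, b ζ j ^ 2 / a ζ c := by
    intro j hj
    refine Finset.sum_sq_le_sum_mul_sum_of_sq_le_mul _ (fun ζ _ => ha ζ c)
      (fun ζ _ => div_nonneg (sq_nonneg _) (ha ζ c)) (fun ζ _ => ?_)
    rcases (ha ζ c).eq_or_lt with h0 | h0
    · rw [hbz ζ j hj h0.symm, ← h0]
      simp
    · refine le_of_eq ?_
      field_simp
  calc ∑ j ∈ univ.image n, (law r (fun w => (s w, n w)) (c, j)) ^ 2
      = ∑ j ∈ univ.image n, (∑ ζ ∈ univ.image l, b ζ j) ^ 2 :=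
        Finset.sum_congr rfl fun j _ => by rw [hsum j]
    _ ≤ ∑ j ∈ univ.image n, A * ∑ ζ ∈ univ.image l, b ζ j ^ 2 / a ζ c :=
        Finset.sum_le_sum hcs
    _ = A * ∑ ζ ∈ univ.image l, (∑ j ∈ univ.image n, b ζ j ^ 2) / a ζ c := by
        rw [← Finset.mul_sum, Finset.sum_comm]
        congr 1
        refine Finset.sum_congr rfl fun ζ _ => ?_
        rw [Finset.sum_div]
    _ ≤ A * ∑ ζ ∈ univ.image l, κ ^ 2 * (a ζ c * θ ζ c) := by
        refine mul_le_mul_of_nonneg_left (Finset.sum_le_sum fun ζ _ => ?_) hA0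
        rcases (ha ζ c).eq_or_lt with h0 | h0
        · rw [← h0]
          simp
        · rw [div_le_iff₀ h0]
          have h1 := hone ζ
          nlinarith
    _ = κ ^ 2 * (A * ∑ ζ ∈ univ.image l, a ζ c * θ ζ c) := by
        rw [← Finset.mul_sum]
        ring
    _ ≤ κ ^ 2 * (law q s c * ∑ ζ ∈ univ.image l, a ζ c * θ ζ c) := by
        refine mul_le_mul_of_nonneg_left (mul_le_mul_of_nonneg_right (haS w0) ?_) (by positivity)
        exact Finset.sum_nonneg fun ζ _ => mul_nonneg (ha ζ c) (hθ ζ c)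

/-- The energy of the chain given the exact base time. -/
theorem marp_core (hq : ∀ w, 0 ≤ q w) (G : Set W) (l : W → Λ) (s : W → σ) (cell : σ → ℤ)
    (T1 : W → ℤ) (R : W → ℝ) (n : W → ℤ) (x0 : Λ → σ → ℝ) (S : Λ → Finset (ℤ × ℝ))
    (U : Λ → ℤ × ℝ → ℝ) (a : Λ → σ → ℝ) {δ κ θ : ℝ} {M : ℕ} (hκ : 0 ≤ κ) (hθ : 0 ≤ θ)
    (hU : ∀ ζ, ∀ z ∈ S ζ, 0 ≤ U ζ z) (ha : ∀ ζ c, 0 ≤ a ζ c)
    (haS : ∀ w, (open Classical in ∑ ζ ∈ univ.image l, a ζ (s w)) ≤ law q s (s w))
    (hS : ∀ w ∈ G, 0 < q w → (T1 w, R w) ∈ S (l w))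
    (hdom : ∀ w ∈ G, 0 < q w →
      law (rG q G) (fun w => ((l w, s w), (T1 w, R w))) ((l w, s w), (T1 w, R w)) ≤
        κ * a (l w) (s w) * U (l w) (T1 w, R w))
    (hgood : ∀ w ∈ G, 0 < q w → en δ M (S (l w)) (U (l w)) (cell (s w)) ≤ θ)
    (hpos : ∀ w ∈ G, 0 < q w → δ ≤ |R w| ∧ |(cell (s w) : ℝ) - T1 w| ≤ M ∧
      |(n w : ℝ) - (x0 (l w) (s w) + ((cell (s w) : ℝ) - T1 w) * R w)| ≤ 64) (w0 : W) :
    (open Classical in ∑ j ∈ univ.image n,
      (law (rG q G) (fun w => (s w, n w)) (s w0, j)) ^ 2) ≤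
      κ ^ 2 * θ * (law q s (s w0)) ^ 2 := by
  refine (marp_line hq G l s cell T1 R n x0 S U a (fun _ _ => θ) hκ (fun _ _ => hθ) hU ha haS hS
    hdom hgood hpos w0).trans ?_
  have h0 := law_nonneg hq s (s w0)
  rw [← Finset.sum_mul]
  have h1 := mul_le_mul_of_nonneg_left (haS w0) (mul_nonneg (mul_nonneg (sq_nonneg κ) hθ) h0)
  nlinarith

/-- Energy on an event, summed over the labels, gives certificates. -/
theorem cert_avg (hq : ∀ w, 0 ≤ q w) (G : Set W) (s : W → σ) (n : W → ν) {e lb τ : ℝ}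
    (hl : 0 < lb) (hτ : 0 < τ)
    (hE : (open Classical in ∑ c ∈ univ.image s, (∑ j ∈ univ.image n,
      (law (rG q G) (fun w => (s w, n w)) (c, j)) ^ 2) / law q s c) ≤ e) :
    Pr q {w | w ∈ G ∧ lb * law q s (s w) < law q (fun w => (s w, n w)) (s w, n w)} ≤
      τ * (∑ w, q w) + e / (lb * τ) := by
  classical
  have hr := rG_nonneg hq G
  set r := rG q G with hrdef
  set Y : W → σ × ν := fun w => (s w, n w) with hY
  have hmem : ∀ w, Y w ∈ univ.image Y := fun w => Finset.mem_image_of_mem Y (Finset.mem_univ w)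
  set P1 : σ × ν → Prop := fun v => lb * τ * law q s v.1 < law r Y v with hP1
  set P2 : σ × ν → Prop := fun v => law r Y v < τ * law q Y v with hP2
  have hsplit : Pr q {w | w ∈ G ∧ lb * law q s (s w) <
      law q (fun w => (s w, n w)) (s w, n w)} ≤
      ∑ w, r w * (if P2 (Y w) then 1 else 0) + ∑ w, r w * (if P1 (Y w) then 1 else 0) := by
    rw [Pr_sum, ← Finset.sum_add_distrib]
    refine Finset.sum_le_sum fun w _ => ?_
    by_cases hw : w ∈ G ∧ lb * law q s (s w) < law q (fun w => (s w, n w)) (s w, n w)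
    · have hrw : r w = q w := by
        simp [hrdef, rG, hw.1]
      have hor : P2 (Y w) ∨ P1 (Y w) := by
        by_contra hno
        push Not at hno
        obtain ⟨hb, ha⟩ := hno
        simp only [hP1, hP2, not_lt] at ha hb
        have hc := hw.2
        have he : τ * law q Y (Y w) ≤ lb * τ * law q s (s w) := hb.trans ha
        have hd : law q Y (Y w) ≤ lb * law q s (s w) := by
          have h5 : τ * law q Y (Y w) ≤ τ * (lb * law q s (s w)) := by linarith
          exact le_of_mul_le_mul_left h5 hτ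
        exact absurd hc (not_lt.mpr hd)
      rw [if_pos (show w ∈ {w | w ∈ G ∧ lb * law q s (s w) <
          law q (fun w => (s w, n w)) (s w, n w)} from hw), hrw]
      have := hq w
      rcases hor with h | h
      · rw [if_pos h, mul_one]
        refine le_add_of_nonneg_right (mul_nonneg this ?_)
        split_ifs <;> norm_num
      · rw [if_pos h, mul_one]
        refine le_add_of_nonneg_left (mul_nonneg this ?_)
        split_ifs <;> norm_num
    · rw [if_neg (show ¬ w ∈ {w | w ∈ G ∧ lb * law q s (s w) <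
          law q (fun w => (s w, n w)) (s w, n w)} from hw)]
      have := hr w
      refine add_nonneg (mul_nonneg this ?_) (mul_nonneg this ?_)
      · split_ifs <;> norm_num
      · split_ifs <;> norm_num
  refine hsplit.trans (add_le_add ?_ ?_)
  · rw [sum_fib (Z := Y) (V := univ.image Y) (fun w _ => hmem w)
      (fun v => if P2 v then (1 : ℝ) else 0), ← sum_law_image q Y, Finset.mul_sum]
    refine Finset.sum_le_sum fun v _ => ?_
    have h0 := law_nonneg hq Y v
    by_cases hp : P2 v
    · rw [if_pos hp, mul_one]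
      exact le_of_lt hp
    · rw [if_neg hp, mul_zero]
      positivity
  · rw [sum_fib (Z := Y) (V := univ.image Y) (fun w _ => hmem w)
      (fun v => if P1 v then (1 : ℝ) else 0)]
    have hb : ∀ v ∈ univ.image Y, law r Y v * (if P1 v then (1 : ℝ) else 0) ≤
        (law r Y v ^ 2 / law q s v.1) / (lb * τ) := by
      intro v hv
      have hA0 : 0 ≤ law q s v.1 := law_nonneg hq _ _
      have ha0 : 0 ≤ law r Y v := law_nonneg hr _ _
      by_cases hp : P1 v
      · rw [if_pos hp, mul_one]
        have hp' : lb * τ * law q s v.1 < law r Y v := hp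
        have hapos : 0 < law r Y v := lt_of_le_of_lt (by positivity) hp'
        have hApos : 0 < law q s v.1 := by
          have h1 : law r Y v ≤ law q s v.1 := by
            refine (law_rG_le hq G Y v).trans ?_
            unfold law
            refine Finset.sum_le_sum fun w _ => ?_
            split_ifs with h2 h3 h3
            · exact le_rfl
            · exact absurd (by rw [← h2]) h3
            · exact hq w
            · exact le_rfl
          exact lt_of_lt_of_le hapos h1
        rw [le_div_iff₀ (by positivity), le_div_iff₀ hApos]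
        calc law r Y v * (lb * τ) * law q s v.1 = law r Y v * (lb * τ * law q s v.1) := by ring
          _ ≤ law r Y v * law r Y v := mul_le_mul_of_nonneg_left hp'.le ha0
          _ = law r Y v ^ 2 := by ring
      · rw [if_neg hp, mul_zero]
        positivity
    refine (Finset.sum_le_sum hb).trans ?_
    rw [← Finset.sum_div]
    refine div_le_div_of_nonneg_right ?_ (by positivity)
    have hsub : univ.image Y ⊆ (univ.image s) ×ˢ (univ.image n) := by
      intro v hv
      obtain ⟨w, -, rfl⟩ := Finset.mem_image.mp hv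
      exact Finset.mem_product.mpr ⟨Finset.mem_image_of_mem s (Finset.mem_univ w),
        Finset.mem_image_of_mem n (Finset.mem_univ w)⟩
    refine (Finset.sum_le_sum_of_subset_of_nonneg hsub fun v _ _ => ?_).trans ?_
    · have := law_nonneg hq s v.1
      positivity
    rw [Finset.sum_product]
    refine le_trans (le_of_eq ?_) hE
    refine Finset.sum_congr rfl fun c _ => ?_
    rw [Finset.sum_div]

end Pool.MARP
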