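import Pool.Agent.H14.K2.MARP

/-!
# Marstrand's step inside an exact base label

`YSetup`: a finite law of triples (line, base label, place on the line), the place and the base
label being independent given the line; the base label `Y` may contain the exact base time and any
labels of (line, base time). The other line is drawn given (exact place, `Y`), so that it is
present at the base time too and has the same labels. `mary_thm`: the conditional probability,
given `Y` and the context, of the actual position at the base time is at most `lb`, outside a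
small set of places.
-/

set_option autoImplicit false

namespace Pool.MARY

open Finset Real
open Pool.Agent.H49.Ent Pool.Agent.H32.Dense Pool.STK Pool.KAF Pool.KAL Pool.LJ Pool.KX Pool.MARP

/-! ### Finite sums -/

section aux

variable {W S S' ξ : Type} [Fintype W]

theorem law_split [DecidableEq ξ] (g : W → ℝ) (F : W → S) (K : W → ξ) (v : S) :
    law g F v = ∑ k ∈ univ.image K, law g (fun w => (F w, K w)) (v, k) := by
  classical
  unfold law
  rw [Finset.sum_comm]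
  refine Finset.sum_congr rfl fun w _ => ?_
  by_cases h : F w = v
  · rw [if_pos h, Finset.sum_eq_single (K w)]
    · rw [if_pos (show (F w, K w) = (v, K w) by rw [h])]
    · intro k _ hk
      rw [if_neg (fun h' => hk (Prod.ext_iff.1 h').2.symm)]
    · intro h'
      exact absurd (Finset.mem_image_of_mem K (Finset.mem_univ w)) h'
  · rw [if_neg h]
    symm
    refine Finset.sum_eq_zero fun k _ => ?_
    rw [if_neg (fun h' => h (Prod.ext_iff.1 h').1)]

theorem law_split' [DecidableEq ξ] (g : W → ℝ) (F : W → S) (K : W → ξ) (v : S) :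
    law g F v = ∑ k ∈ univ.image K, law g (fun w => (K w, F w)) (k, v) := by
  classical
  rw [law_split g F K v]
  refine Finset.sum_congr rfl fun k _ => ?_
  unfold law
  refine Finset.sum_congr rfl fun w _ => ?_
  by_cases h : F w = v <;> by_cases h' : K w = k <;> simp [h, h']

theorem law_le_imp {g : W → ℝ} (hg : ∀ w, 0 ≤ g w) {F : W → S} {F' : W → S'} {v : S} {v' : S'}
    (h : ∀ w, g w ≠ 0 → F w = v → F' w = v') : law g F v ≤ law g F' v' := by
  classical
  unfold law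
  refine Finset.sum_le_sum fun w _ => ?_
  by_cases h0 : g w = 0
  · rw [h0]
    split_ifs <;> exact le_rfl
  · split_ifs with h1 h2 h2
    · exact le_rfl
    · exact absurd (h w h0 h1) h2
    · exact hg w
    · exact le_rfl

theorem law_eq_iff {g : W → ℝ} (hg : ∀ w, 0 ≤ g w) {F : W → S} {F' : W → S'} {v : S} {v' : S'}
    (h : ∀ w, g w ≠ 0 → (F w = v ↔ F' w = v')) : law g F v = law g F' v' :=
  le_antisymm (law_le_imp hg fun w h0 => (h w h0).1) (law_le_imp hg fun w h0 => (h w h0).2)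

theorem law_ne {g : W → ℝ} {F : W → S} {v : S} (h : law g F v ≠ 0) : ∃ w, g w ≠ 0 ∧ F w = v := by
  classical
  by_contra hno
  push Not at hno
  apply h
  unfold law
  refine Finset.sum_eq_zero fun w _ => ?_
  split_ifs with h1
  · by_contra h2
    exact hno w h2 h1
  · rfl

theorem law_two (p : W → ℝ) (F : W → S) (F' : W → S') (a : S) (a' : S') (k : ℝ)
    (inst : ∀ w : W × W, Decidable (F w.1 = a ∧ F' w.2 = a')) :
    law p F a * law p F' a' / k =
      ∑ w : W × W, @ite ℝ (F w.1 = a ∧ F' w.2 = a') (inst w) (p w.1 * p w.2 / k) 0 := by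
  classical
  unfold law
  rw [Fintype.sum_prod_type, Finset.sum_mul_sum, Finset.sum_div]
  refine Finset.sum_congr rfl fun x _ => ?_
  rw [Finset.sum_div]
  refine Finset.sum_congr rfl fun y _ => ?_
  by_cases h1 : F x = a <;> by_cases h2 : F' y = a' <;> simp [h1, h2]

theorem image_snd {ξ : Type} [DecidableEq ξ] (f : W → ξ) :
    (univ : Finset (W × W)).image (fun w => f w.2) = univ.image f := by
  ext k
  simp only [Finset.mem_image, Finset.mem_univ, true_and]
  constructor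
  · rintro ⟨w, rfl⟩
    exact ⟨w.2, rfl⟩
  · rintro ⟨w, rfl⟩
    exact ⟨(w, w), rfl⟩

theorem image_fst {ξ : Type} [DecidableEq ξ] (f : W → ξ) :
    (univ : Finset (W × W)).image (fun w => f w.1) = univ.image f := by
  ext k
  simp only [Finset.mem_image, Finset.mem_univ, true_and]
  constructor
  · rintro ⟨w, rfl⟩
    exact ⟨w.1, rfl⟩
  · rintro ⟨w, rfl⟩
    exact ⟨(w, w), rfl⟩

end aux

variable {Ω Λ β υ υ0 γ μ : Type} [Fintype Ω]

/-- The data. `lam`: line (with all the coarse labels), `b`: context, `Y`: base label, `Y0`: coarse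
base label, `Pt`: exact place, `T`: its cell, `u`: velocity digits, `x`: position at the base time,
`cell`: cell of the base time, `ρ`: change of the velocity; `E`: base places, `B`: good partner
places, `G`: good places of the mate. -/
structure YSetup (p : Ω → ℝ) (lam : Ω → Λ) (b : Ω → β) (Y : Ω → υ) (Y0 : Ω → υ0) (Pt : Ω → γ)
    (u : Ω → μ) (T x : Ω → ℤ) (cell : υ → ℤ) (ρ : Λ → γ → μ → ℝ) (E B G : Set Ω) (M : ℕ)
    (θ Θ D η c₁ : ℝ) : Prop where
  isl : IsLaw p
  M1 : 1 ≤ M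
  θ0 : 0 < θ
  θ1 : θ ≤ 1
  Θ0 : 0 ≤ Θ
  D0 : 0 ≤ D
  η0 : 0 < η
  c0 : 0 < c₁
  time : ∀ ω, 0 < p ω → (0 ≤ T ω ∧ T ω < M) ∧ 0 ≤ cell (Y ω) ∧ cell (Y ω) < M
  line : ∀ ω ω', 0 < p ω → 0 < p ω' → lam ω = lam ω' → Y ω = Y ω' → b ω = b ω' ∧ x ω = x ω'
  coarse : ∀ ω ω', 0 < p ω → 0 < p ω' → lam ω = lam ω' ∨ Y ω = Y ω' → Y0 ω = Y0 ω'
  point : ∀ ω ω', 0 < p ω → 0 < p ω' → Pt ω = Pt ω' → T ω = T ω'
  point' : ∀ ω ω', 0 < p ω → 0 < p ω' → Pt ω = Pt ω' → Y ω = Y ω' → b ω = b ω'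
  ind : ∀ ω ∈ G, 0 < p ω →
    law p (fun ω => (lam ω, (Pt ω, Y ω))) (lam ω, (Pt ω, Y ω)) * law p lam (lam ω) ≤
      law p (fun ω => (lam ω, Pt ω)) (lam ω, Pt ω) * law p (fun ω => (lam ω, Y ω)) (lam ω, Y ω)
  geo : ∀ o ∈ G, ∀ w ∈ B, 0 < p o → 0 < p w → Pt o = Pt w → Y o = Y w →
    θ ≤ |ρ (lam o) (Pt o) (u w)| →
    |(x w : ℝ) - (x o + ((cell (Y o) : ℝ) - T o) * ρ (lam o) (Pt o) (u w))| ≤ 64
  dom : ∀ w ∈ B, 0 < p w →
    law p (fun ω => ((Pt ω, Y ω), u ω)) ((Pt w, Y w), u w) *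
        law p (fun ω => (Pt ω, Y0 ω)) (Pt w, Y0 w) ≤
      D * (law p (fun ω => (Pt ω, Y ω)) (Pt w, Y w) *
        law p (fun ω => ((Pt ω, Y0 ω), u ω)) ((Pt w, Y0 w), u w))
  act : ∀ w ∈ B, 0 < p w → c₁ * law p (fun ω => (Pt ω, Y ω)) (Pt w, Y w) ≤
    ∑ o, (open Classical in if (Pt o, Y o) = (Pt w, Y w) ∧ o ∈ G ∧
      θ ≤ |ρ (lam o) (Pt o) (u w)| then p o else 0)
  part : ∀ ω ∈ E, 0 < p ω → η * law p (fun ω => (lam ω, Y ω)) (lam ω, Y ω) ≤
    ∑ w, (open Classical in if (lam w, Y w) = (lam ω, Y ω) ∧ w ∈ B then p w else 0)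
  densT : ∀ o ∈ G, 0 < p o →
    law p (fun ω => (lam ω, T ω)) (lam o, T o) ≤ Θ / M * law p lam (lam o)
  densS : ∀ o ∈ G, 0 < p o →
    law p (fun ω => (lam ω, cell (Y ω))) (lam o, cell (Y o)) ≤ Θ / M * law p lam (lam o)

variable {p : Ω → ℝ} {lam : Ω → Λ} {b : Ω → β} {Y : Ω → υ} {Y0 : Ω → υ0} {Pt : Ω → γ}
    {u : Ω → μ} {T x : Ω → ℤ} {cell : υ → ℤ} {ρ : Λ → γ → μ → ℝ} {E B G : Set Ω} {M : ℕ}
    {θ Θ D η c₁ : ℝ}

/-- The pairs (mate, base line) used. -/
def AA (lam : Ω → Λ) (Pt : Ω → γ) (u : Ω → μ) (ρ : Λ → γ → μ → ℝ) (B G : Set Ω) (θ : ℝ) :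
    Set (Ω × Ω) :=
  {w | w.1 ∈ G ∧ w.2 ∈ B ∧ θ ≤ |ρ (lam w.1) (Pt w.1) (u w.2)|}

/-- Mass of the good partner places with a given base label. -/
theorem reach1 (h : YSetup p lam b Y Y0 Pt u T x cell ρ E B G M θ Θ D η c₁) (c : β × υ) (j : ℤ) :
    η * law (rG p E) (fun ω => ((b ω, Y ω), x ω)) (c, j) ≤
      law (rG p B) (fun ω => ((b ω, Y ω), x ω)) (c, j) := by
  classical
  have hp := h.isl.nonneg
  set g : Ω → ℝ := fun ω => if ((b ω, Y ω), x ω) = (c, j) then 1 else 0 with hg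
  have hg0 : ∀ ω, 0 ≤ g ω := fun ω => by simp only [hg]; split_ifs <;> norm_num
  have hgc : ∀ ω w, 0 < p ω → 0 < p w → lam w = lam ω → Y w = Y ω → g ω = g w := by
    intro ω w h1 h2 h3 h4
    obtain ⟨h5, h6⟩ := h.line w ω h2 h1 h3 h4
    simp only [hg, h5, h6, h4]
  set K : Ω → Λ × υ := fun ω => (lam ω, Y ω) with hK
  have e1 : law (rG p E) (fun ω => ((b ω, Y ω), x ω)) (c, j) =
      ∑ ω, (if ω ∈ E then p ω * g ω else 0) := by
    unfold law rG
    refine Finset.sum_congr rfl fun ω _ => ?_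
    simp only [hg]
    split_ifs <;> simp
  have e2 : law (rG p B) (fun ω => ((b ω, Y ω), x ω)) (c, j) =
      ∑ ω, (if ω ∈ B then p ω * g ω else 0) := by
    unfold law rG
    refine Finset.sum_congr rfl fun ω _ => ?_
    simp only [hg]
    split_ifs <;> simp
  rw [e1, e2, Finset.mul_sum]
  calc ∑ ω, η * (if ω ∈ E then p ω * g ω else 0)
      ≤ ∑ ω, ∑ w, (if K w = K ω ∧ w ∈ B then p w * g w * (p ω / law p K (K ω)) else 0) := by
        refine Finset.sum_le_sum fun ω _ => ?_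
        have hR : 0 ≤ ∑ w, (if K w = K ω ∧ w ∈ B then p w * g w * (p ω / law p K (K ω)) else 0) :=
          Finset.sum_nonneg fun w _ => by
            split_ifs
            · exact mul_nonneg (mul_nonneg (hp w) (hg0 w))
                (div_nonneg (hp ω) (law_nonneg hp K _))
            · exact le_rfl
        by_cases hE : ω ∈ E
        · rcases (hp ω).eq_or_lt with h0 | h0
          · rw [if_pos hE, ← h0, zero_mul, mul_zero]
            rwa [← h0] at hR
          · rw [if_pos hE]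
            have hl : 0 < law p K (K ω) := law_pos hp K h0
            have h1 : ∑ w, (if K w = K ω ∧ w ∈ B then p w * g w * (p ω / law p K (K ω)) else 0) =
                (∑ w, if K w = K ω ∧ w ∈ B then p w else 0) * (g ω * (p ω / law p K (K ω))) := by
              rw [Finset.sum_mul]
              refine Finset.sum_congr rfl fun w _ => ?_
              by_cases h2 : K w = K ω ∧ w ∈ B
              · rw [if_pos h2, if_pos h2]
                rcases (hp w).eq_or_lt with h3 | h3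
                · rw [← h3]
                  ring
                · have h4 := Prod.ext_iff.1 h2.1
                  rw [hgc ω w h0 h3 h4.1 h4.2]
                  ring
              · rw [if_neg h2, if_neg h2, zero_mul]
            rw [h1]
            have h2 := h.part ω hE h0
            have h3 := mul_le_mul_of_nonneg_right h2
              (mul_nonneg (hg0 ω) (div_nonneg (hp ω) hl.le))
            refine le_trans (le_of_eq ?_) h3
            change η * (p ω * g ω) = η * law p K (K ω) * (g ω * (p ω / law p K (K ω)))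
            field_simp
        · rw [if_neg hE, mul_zero]
          exact hR
    _ = ∑ w, ∑ ω, (if K w = K ω ∧ w ∈ B then p w * g w * (p ω / law p K (K ω)) else 0) :=
        Finset.sum_comm
    _ ≤ ∑ w, (if w ∈ B then p w * g w else 0) := by
        refine Finset.sum_le_sum fun w _ => ?_
        by_cases hB : w ∈ B
        · rw [if_pos hB]
          have h1 : ∑ ω, (if K w = K ω ∧ w ∈ B then p w * g w * (p ω / law p K (K ω)) else 0) =
              p w * g w / law p K (K w) * law p K (K w) := by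
            have h2 : law p K (K w) = ∑ ω, if K ω = K w then p ω else 0 := by
              unfold law
              refine Finset.sum_congr rfl fun ω _ => ?_
              congr
            conv_rhs => rw [h2, Finset.mul_sum]
            rw [← h2]
            refine Finset.sum_congr rfl fun ω _ => ?_
            by_cases h3 : K ω = K w
            · rw [if_pos ⟨h3.symm, hB⟩, if_pos h3, h3]
              ring
            · rw [if_neg (fun h4 => h3 h4.1.symm), if_neg h3, mul_zero]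
          rw [h1]
          rcases (law_nonneg hp K (K w)).eq_or_lt with h2 | h2
          · rw [← h2, mul_zero]
            exact mul_nonneg (hp w) (hg0 w)
          · rw [div_mul_cancel₀ _ h2.ne']
        · rw [if_neg hB]
          refine le_of_eq (Finset.sum_eq_zero fun ω _ => ?_)
          rw [if_neg (fun h2 => hB h2.2)]

/-- The walk reaches the good partner places. -/
theorem reach2 (h : YSetup p lam b Y Y0 Pt u T x cell ρ E B G M θ Θ D η c₁) (c : β × υ) (j : ℤ) :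
    c₁ * law (rG p B) (fun ω => ((b ω, Y ω), x ω)) (c, j) ≤
      law (rG (dbl p (fun ω => (Pt ω, Y ω))) (AA lam Pt u ρ B G θ))
        (fun w => ((b w.2, Y w.2), x w.2)) (c, j) := by
  classical
  have hp := h.isl.nonneg
  set Z : Ω → γ × υ := fun ω => (Pt ω, Y ω) with hZ
  have e1 : law (rG (dbl p Z) (AA lam Pt u ρ B G θ)) (fun w => ((b w.2, Y w.2), x w.2)) (c, j) =
      ∑ w, ∑ o, (if ((b w, Y w), x w) = (c, j) ∧ w ∈ B then
        (if Z o = Z w ∧ o ∈ G ∧ θ ≤ |ρ (lam o) (Pt o) (u w)| then p o else 0) *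
          (p w / law p Z (Z w)) else 0) := by
    unfold law
    rw [Fintype.sum_prod_type, Finset.sum_comm]
    refine Finset.sum_congr rfl fun w _ => Finset.sum_congr rfl fun o _ => ?_
    by_cases h1 : ((b w, Y w), x w) = (c, j)
    · rw [if_pos h1]
      unfold rG
      by_cases h2 : (o, w) ∈ AA lam Pt u ρ B G θ
      · rw [if_pos h2]
        have h2' : o ∈ G ∧ w ∈ B ∧ θ ≤ |ρ (lam o) (Pt o) (u w)| := h2
        rw [if_pos ⟨h1, h2'.2.1⟩]
        by_cases h3 : Z o = Z w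
        · rw [if_pos ⟨h3, h2'.1, h2'.2.2⟩]
          unfold dbl glue
          rw [if_pos h3]
          show p o * p w / law p Z (Z o) = p o * (p w / law p Z (Z w))
          rw [h3]
          ring
        · rw [if_neg (fun h4 => h3 h4.1), zero_mul]
          unfold dbl glue
          rw [if_neg h3]
      · rw [if_neg h2]
        by_cases h3 : w ∈ B
        · rw [if_pos ⟨h1, h3⟩, if_neg, zero_mul]
          rintro ⟨-, h4, h5⟩
          exact h2 ⟨h4, h3, h5⟩
        · rw [if_neg (fun h4 => h3 h4.2)]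
    · rw [if_neg h1, if_neg (fun h4 => h1 h4.1)]
  have e2 : law (rG p B) (fun ω => ((b ω, Y ω), x ω)) (c, j) =
      ∑ w, (if ((b w, Y w), x w) = (c, j) ∧ w ∈ B then p w else 0) := by
    unfold law rG
    refine Finset.sum_congr rfl fun w _ => ?_
    by_cases h1 : ((b w, Y w), x w) = (c, j) <;> by_cases h2 : w ∈ B <;> simp [h1, h2]
  rw [e1, e2, Finset.mul_sum]
  refine Finset.sum_le_sum fun w _ => ?_
  by_cases h1 : ((b w, Y w), x w) = (c, j) ∧ w ∈ B
  · have e3 : ∀ o : Ω, (if ((b w, Y w), x w) = (c, j) ∧ w ∈ B then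
        (if Z o = Z w ∧ o ∈ G ∧ θ ≤ |ρ (lam o) (Pt o) (u w)| then p o else 0) *
          (p w / law p Z (Z w)) else 0) =
        (if Z o = Z w ∧ o ∈ G ∧ θ ≤ |ρ (lam o) (Pt o) (u w)| then p o else 0) *
          (p w / law p Z (Z w)) := fun o => if_pos h1
    rw [if_pos h1, Finset.sum_congr rfl fun o _ => e3 o, ← Finset.sum_mul]
    rcases (hp w).eq_or_lt with h0 | h0
    · rw [← h0]
      simp
    · have h2 := h.act w h1.2 h0
      have hl : 0 < law p Z (Z w) := law_pos hp Z h0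
      have h3 := mul_le_mul_of_nonneg_right h2 (div_nonneg (hp w) hl.le)
      refine le_trans (le_of_eq ?_) h3
      change c₁ * p w = c₁ * law p Z (Z w) * (p w / law p Z (Z w))
      field_simp
  · rw [if_neg h1, mul_zero]
    refine Finset.sum_nonneg fun o _ => ?_
    rw [if_neg h1]


open Classical in
/-- Reference measure of the steps of the walk from the line `ζ`. -/
noncomputable def UU (p : Ω → ℝ) (lam : Ω → Λ) (Y0 : Ω → υ0) (Pt : Ω → γ) (u : Ω → μ) (T : Ω → ℤ)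
    (ρ : Λ → γ → μ → ℝ) (ζ : Λ) (z : ℤ × ℝ) : ℝ :=
  law (dbl p (fun ω => (Pt ω, Y0 ω)))
    (fun w => (lam w.1, (T w.1, ρ (lam w.1) (Pt w.1) (u w.2)))) (ζ, z) / law p lam ζ

open Classical in
/-- The steps of the walk from the line `ζ`. -/
noncomputable def SS (p : Ω → ℝ) (lam : Ω → Λ) (Pt : Ω → γ) (u : Ω → μ) (T : Ω → ℤ)
    (ρ : Λ → γ → μ → ℝ) (G : Set Ω) (ζ : Λ) : Finset (ℤ × ℝ) :=
  ((univ : Finset (Ω × Ω)).filter fun w => w.1 ∈ G ∧ 0 < p w.1 ∧ lam w.1 = ζ).image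
    fun w => (T w.1, ρ (lam w.1) (Pt w.1) (u w.2))

/-- The joint law of a step, a line and a base label is dominated by the reference measure. -/
theorem hdom (h : YSetup p lam b Y Y0 Pt u T x cell ρ E B G M θ Θ D η c₁)
    (w : Ω × Ω) (hq : 0 < dbl p (fun ω => (Pt ω, Y ω)) w) :
    law (rG (dbl p (fun ω => (Pt ω, Y ω))) (AA lam Pt u ρ B G θ))
      (fun w => ((lam w.1, (b w.2, Y w.2)), (T w.1, ρ (lam w.1) (Pt w.1) (u w.2))))
      ((lam w.1, (b w.2, Y w.2)), (T w.1, ρ (lam w.1) (Pt w.1) (u w.2))) ≤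
    D * law p (fun ω => (lam ω, (b ω, Y ω))) (lam w.1, (b w.2, Y w.2)) *
      UU p lam Y0 Pt u T ρ (lam w.1) (T w.1, ρ (lam w.1) (Pt w.1) (u w.2)) := by
  classical
  have hp := h.isl.nonneg
  set Z : Ω → γ × υ := fun ω => (Pt ω, Y ω) with hZ
  set Z0 : Ω → γ × υ0 := fun ω => (Pt ω, Y0 ω) with hZ0
  set A := AA lam Pt u ρ B G θ with hA
  set r := rG (dbl p Z) A with hr
  have hd0 : ∀ w, 0 ≤ dbl p Z w := fun w => dbl_nonneg hp w
  have hr0 : ∀ w, 0 ≤ r w := rG_nonneg hd0 A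
  have hrne : ∀ w, r w ≠ 0 → w ∈ A ∧ 0 < p w.1 ∧ 0 < p w.2 ∧ Pt w.1 = Pt w.2 ∧ Y w.1 = Y w.2 := by
    intro w hw
    rw [hr] at hw
    unfold rG at hw
    by_cases h1 : w ∈ A
    · rw [if_pos h1] at hw
      have h2 : 0 < dbl p Z w := lt_of_le_of_ne (hd0 w) (Ne.symm hw)
      obtain ⟨h3, h4, h5⟩ := (glue_pos_iff hp hp w).mp h2
      exact ⟨h1, h3, h4, (Prod.ext_iff.1 h5).1, (Prod.ext_iff.1 h5).2⟩
    · rw [if_neg h1] at hw
      exact absurd rfl hw
  obtain ⟨g1, g2, g3⟩ := (glue_pos_iff hp hp w).mp hq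
  have g4 : Pt w.1 = Pt w.2 := (Prod.ext_iff.1 g3).1
  have g5 : Y w.1 = Y w.2 := (Prod.ext_iff.1 g3).2
  set ζ := lam w.1 with hζ
  set c : β × υ := (b w.2, Y w.2) with hc
  set z : ℤ × ℝ := (T w.1, ρ ζ (Pt w.1) (u w.2)) with hz
  have hlζ : 0 < law p lam ζ := law_pos hp lam g1
  have ha0 : 0 ≤ law p (fun ω => (lam ω, (b ω, Y ω))) (ζ, c) := law_nonneg hp _ _
  -- split along the exact place and the velocity digits
  set KK : Ω × Ω → γ × μ := fun w => (Pt w.1, u w.2) with hKK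
  unfold UU
  rw [law_split r _ KK, law_split (dbl p Z0) _ KK, Finset.sum_div, Finset.mul_sum]
  refine Finset.sum_le_sum fun k _ => ?_
  have hR0 : 0 ≤ D * law p (fun ω => (lam ω, (b ω, Y ω))) (ζ, c) *
      (law (dbl p Z0) (fun w => ((lam w.1, (T w.1, ρ (lam w.1) (Pt w.1) (u w.2))), KK w))
        ((ζ, z), k) / law p lam ζ) :=
    mul_nonneg (mul_nonneg h.D0 ha0) (div_nonneg (law_nonneg (fun w => dbl_nonneg hp w) _ _) hlζ.le)
  by_cases hne : law r (fun w => (((lam w.1, (b w.2, Y w.2)),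
      (T w.1, ρ (lam w.1) (Pt w.1) (u w.2))), KK w)) (((ζ, c), z), k) = 0
  · rw [hne]
    exact hR0
  obtain ⟨v, hv, hv2⟩ := law_ne hne
  obtain ⟨k1, k2, k3, k4, k5⟩ := hrne v hv
  have k1' : v.1 ∈ G ∧ v.2 ∈ B ∧ θ ≤ |ρ (lam v.1) (Pt v.1) (u v.2)| := k1
  simp only [Prod.mk.injEq] at hv2
  obtain ⟨⟨⟨m1, m2⟩, m3⟩, m4⟩ := hv2
  rw [← m4]
  -- left side
  have hL : law r (fun w => (((lam w.1, (b w.2, Y w.2)),
      (T w.1, ρ (lam w.1) (Pt w.1) (u w.2))), KK w)) (((ζ, c), z), KK v) ≤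
      law p (fun ω => (lam ω, (Pt ω, Y ω))) (lam v.1, (Pt v.1, Y v.1)) *
        law p (fun ω => ((Pt ω, Y ω), u ω)) ((Pt v.2, Y v.2), u v.2) /
        law p Z (Z v.2) := by
    have e1 : law p (fun ω => (lam ω, (Pt ω, Y ω))) (lam v.1, (Pt v.1, Y v.1)) *
        law p (fun ω => ((Pt ω, Y ω), u ω)) ((Pt v.2, Y v.2), u v.2) / law p Z (Z v.2) =
        ∑ w : Ω × Ω, (if (lam w.1, (Pt w.1, Y w.1)) = (lam v.1, (Pt v.1, Y v.1)) ∧
          ((Pt w.2, Y w.2), u w.2) = ((Pt v.2, Y v.2), u v.2) then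
          p w.1 * p w.2 / law p Z (Z v.2) else 0) := by
      exact law_two p (fun ω => (lam ω, (Pt ω, Y ω))) (fun ω => ((Pt ω, Y ω), u ω)) _ _ _ _
    rw [e1]
    unfold law
    refine Finset.sum_le_sum fun w' _ => ?_
    have hRR : 0 ≤ (if (lam w'.1, (Pt w'.1, Y w'.1)) = (lam v.1, (Pt v.1, Y v.1)) ∧
          ((Pt w'.2, Y w'.2), u w'.2) = ((Pt v.2, Y v.2), u v.2) then
          p w'.1 * p w'.2 / law p Z (Z v.2) else 0) := by
      split_ifs
      · exact div_nonneg (mul_nonneg (hp _) (hp _)) (law_nonneg hp _ _)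
      · exact le_rfl
    by_cases h1 : (((lam w'.1, (b w'.2, Y w'.2)),
      (T w'.1, ρ (lam w'.1) (Pt w'.1) (u w'.2))), KK w') = (((ζ, c), z), KK v)
    · by_cases h2 : r w' = 0
      · simp only [h1, if_true, h2]
        exact hRR
      · obtain ⟨n1, n2, n3, n4, n5⟩ := hrne w' h2
        simp only [Prod.mk.injEq] at h1
        obtain ⟨⟨⟨l1, l2⟩, l3⟩, l4⟩ := h1
        have l5 := Prod.ext_iff.1 l4
        have l6 : Pt w'.1 = Pt v.1 := l5.1
        have l7 : u w'.2 = u v.2 := l5.2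
        have l8 : Y w'.2 = Y v.2 := by
          have := (Prod.ext_iff.1 l2).2
          have h3 := (Prod.ext_iff.1 m2).2
          exact this.trans h3.symm
        have l9 : (lam w'.1, (Pt w'.1, Y w'.1)) = (lam v.1, (Pt v.1, Y v.1)) ∧
          ((Pt w'.2, Y w'.2), u w'.2) = ((Pt v.2, Y v.2), u v.2) := by
          refine ⟨?_, ?_⟩
          · rw [l1, m1, l6, n5, l8, k5]
          · rw [← n4, l6, k4, l8, l7]
        rw [if_pos l9]
        have l10 : r w' ≤ p w'.1 * p w'.2 / law p Z (Z v.2) := by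
          refine (rG_le hd0 A w').trans ?_
          unfold dbl glue
          have l11 : Z w'.1 = Z w'.2 := Prod.ext n4 n5
          rw [if_pos l11]
          have l12 : Z w'.1 = Z v.2 := Prod.ext (l6.trans k4) (n5.trans l8)
          rw [l12]
        refine le_trans ?_ l10
        split_ifs
        exacts [le_rfl, hr0 w']
    · rw [if_neg h1]
      exact hRR
  -- right side
  have hRt : law p (fun ω => (lam ω, Pt ω)) (lam v.1, Pt v.1) *
        law p (fun ω => ((Pt ω, Y0 ω), u ω)) ((Pt v.2, Y0 v.2), u v.2) /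
        law p Z0 (Z0 v.2) ≤
      law (dbl p Z0) (fun w => ((lam w.1, (T w.1, ρ (lam w.1) (Pt w.1) (u w.2))), KK w))
        ((ζ, z), KK v) := by
    have e1 : law p (fun ω => (lam ω, Pt ω)) (lam v.1, Pt v.1) *
        law p (fun ω => ((Pt ω, Y0 ω), u ω)) ((Pt v.2, Y0 v.2), u v.2) / law p Z0 (Z0 v.2) =
        ∑ w : Ω × Ω, (if (lam w.1, Pt w.1) = (lam v.1, Pt v.1) ∧
          ((Pt w.2, Y0 w.2), u w.2) = ((Pt v.2, Y0 v.2), u v.2) then
          p w.1 * p w.2 / law p Z0 (Z0 v.2) else 0) := by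
      exact law_two p (fun ω => (lam ω, Pt ω)) (fun ω => ((Pt ω, Y0 ω), u ω)) _ _ _ _
    rw [e1]
    unfold law
    refine Finset.sum_le_sum fun w' _ => ?_
    by_cases h1 : (lam w'.1, Pt w'.1) = (lam v.1, Pt v.1) ∧
          ((Pt w'.2, Y0 w'.2), u w'.2) = ((Pt v.2, Y0 v.2), u v.2)
    · rw [if_pos h1]
      by_cases h2 : p w'.1 * p w'.2 = 0
      · rw [h2, zero_div]
        split_ifs
        · exact dbl_nonneg hp w'
        · exact le_rfl
      have n1 : 0 < p w'.1 := lt_of_le_of_ne (hp _) fun h3 => h2 (by rw [← h3, zero_mul])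
      have n2 : 0 < p w'.2 := lt_of_le_of_ne (hp _) fun h3 => h2 (by rw [← h3, mul_zero])
      simp only [Prod.mk.injEq] at h1
      obtain ⟨⟨l1, l2⟩, ⟨l3, l4⟩, l5⟩ := h1
      have l6 : Y0 w'.1 = Y0 w'.2 := by
        rw [h.coarse w'.1 v.1 n1 k2 (Or.inl l1), h.coarse v.1 v.2 k2 k3 (Or.inr k5), l4]
      have l7 : Z0 w'.1 = Z0 w'.2 := Prod.ext (l2.trans (k4.trans l3.symm)) l6
      have l8 : T w'.1 = T w.1 := by
        rw [h.point w'.1 v.1 n1 k2 l2]
        exact (Prod.ext_iff.1 m3).1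
      have l9 : ρ (lam w'.1) (Pt w'.1) (u w'.2) = ρ ζ (Pt w.1) (u w.2) := by
        rw [l1, l2, l5]
        exact (Prod.ext_iff.1 m3).2
      have l10 : ((lam w'.1, (T w'.1, ρ (lam w'.1) (Pt w'.1) (u w'.2))), KK w') =
        ((ζ, z), KK v) := by
        rw [l9, l8, l1, m1]
        simp only [hKK, l2, l5, hz]
      rw [if_pos l10]
      unfold dbl glue
      rw [if_pos l7, l7]
      have l11 : Z0 w'.2 = Z0 v.2 := Prod.ext l3 l4
      rw [l11]
      exact le_rfl
    · rw [if_neg h1]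
      split_ifs
      · exact dbl_nonneg hp w'
      · exact le_rfl
  -- comparison
  have p1 := h.ind v.1 k1'.1 k2
  have p2 := h.dom v.2 k1'.2.1 k3
  have p3 : law p (fun ω => (lam ω, Y ω)) (lam v.1, Y v.1) =
      law p (fun ω => (lam ω, (b ω, Y ω))) (ζ, c) := by
    refine law_eq_iff hp fun w' hw' => ?_
    have n1 : 0 < p w' := lt_of_le_of_ne (hp _) (Ne.symm hw')
    have q1 : b v.1 = b v.2 := h.point' _ _ k2 k3 k4 k5
    constructor
    · intro h1
      have h2 := Prod.ext_iff.1 h1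
      have h3 : lam w' = lam v.1 := h2.1
      have h4 : Y w' = Y v.1 := h2.2
      have h5 := (h.line w' v.1 n1 k2 h3 h4).1
      rw [h3, h4, h5, m1, k5, q1, ← m2]
    · intro h1
      have h2 := Prod.ext_iff.1 h1
      have h3 : lam w' = ζ := h2.1
      have h4 : Y w' = c.2 := (Prod.ext_iff.1 h2.2).2
      have h5 : Y v.2 = c.2 := (Prod.ext_iff.1 m2).2
      rw [h3, h4, m1, k5, h5]
  have q1 : 0 < law p Z (Z v.2) := law_pos hp Z k3
  have q2 : 0 < law p Z0 (Z0 v.2) := law_pos hp Z0 k3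
  have q3 := mul_le_mul p1 p2
    (mul_nonneg (law_nonneg hp _ _) (law_nonneg hp _ _))
    (mul_nonneg (law_nonneg hp _ _) (law_nonneg hp _ _))
  rw [m1] at q3
  refine hL.trans ?_
  have q4 : D * law p (fun ω => (lam ω, (b ω, Y ω))) (ζ, c) *
      (law p (fun ω => (lam ω, Pt ω)) (lam v.1, Pt v.1) *
        law p (fun ω => ((Pt ω, Y0 ω), u ω)) ((Pt v.2, Y0 v.2), u v.2) /
        law p Z0 (Z0 v.2) / law p lam ζ) ≤ D * law p (fun ω => (lam ω, (b ω, Y ω))) (ζ, c) *
      (law (dbl p Z0) (fun w => ((lam w.1, (T w.1, ρ (lam w.1) (Pt w.1) (u w.2))), KK w))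
        ((ζ, z), KK v) / law p lam ζ) :=
    mul_le_mul_of_nonneg_left (div_le_div_of_nonneg_right hRt hlζ.le) (mul_nonneg h.D0 ha0)
  refine le_trans ?_ q4
  rw [← p3, div_div, div_le_iff₀ q1, m1]
  have q5 : 0 < law p Z0 (Z0 v.2) * law p lam ζ := mul_pos q2 hlζ
  rw [mul_div_assoc', div_mul_eq_mul_div, le_div_iff₀ q5]
  change law p (fun ω => (lam ω, (Pt ω, Y ω))) (ζ, (Pt v.1, Y v.1)) *
      law p (fun ω => ((Pt ω, Y ω), u ω)) ((Pt v.2, Y v.2), u v.2) *
      (law p (fun ω => (Pt ω, Y0 ω)) (Pt v.2, Y0 v.2) * law p lam ζ) ≤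
    D * law p (fun ω => (lam ω, Y ω)) (ζ, Y v.1) *
      (law p (fun ω => (lam ω, Pt ω)) (ζ, Pt v.1) *
        law p (fun ω => ((Pt ω, Y0 ω), u ω)) ((Pt v.2, Y0 v.2), u v.2)) *
      law p (fun ω => (Pt ω, Y ω)) (Pt v.2, Y v.2)
  calc _ = _ := by ring
    _ ≤ _ := q3
    _ = _ := by ring


theorem sum_law_le {W S S' ξ : Type} [Fintype W] {g : W → ℝ} (hg : ∀ w, 0 ≤ g w) {F : W → S}
    {K : W → ξ} {F' : W → S'} {v : S} {v' : S'} {V : Finset ξ}
    (h : ∀ w, g w ≠ 0 → F w = v → K w ∈ V → F' w = v') :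
    ∑ k ∈ V, law g (fun w => (F w, K w)) (v, k) ≤ law g F' v' := by
  classical
  unfold law
  rw [Finset.sum_comm]
  refine Finset.sum_le_sum fun w _ => ?_
  have h0 : 0 ≤ (if F' w = v' then g w else 0) := by
    split_ifs
    exacts [hg w, le_rfl]
  by_cases h1 : g w = 0
  · refine le_trans (le_of_eq (Finset.sum_eq_zero fun k _ => ?_)) h0
    rw [h1]
    split_ifs <;> rfl
  · by_cases h2 : F w = v ∧ K w ∈ V
    · rw [Finset.sum_eq_single (K w)]
      · rw [if_pos (show (F w, K w) = (v, K w) by rw [h2.1]), if_pos (h w h1 h2.1 h2.2)]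
      · intro k _ hk
        rw [if_neg (fun h' => hk (Prod.ext_iff.1 h').2.symm)]
      · intro h'
        exact absurd h2.2 h'
    · refine le_trans (le_of_eq (Finset.sum_eq_zero fun k hk => ?_)) h0
      rw [if_neg]
      intro h'
      have h3 := Prod.ext_iff.1 h'
      exact h2 ⟨h3.1, by rw [show K w = k from h3.2]; exact hk⟩

theorem UU_nonneg (hp : ∀ ω, 0 ≤ p ω) (ζ : Λ) (z : ℤ × ℝ) :
    0 ≤ UU p lam Y0 Pt u T ρ ζ z := by
  classical
  unfold UU
  exact div_nonneg (law_nonneg (fun w => dbl_nonneg hp w) _ _) (law_nonneg hp _ _)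

theorem UU_sum (hp : ∀ ω, 0 ≤ p ω) (ζ : Λ) (V : Finset (ℤ × ℝ)) :
    ∑ z ∈ V, UU p lam Y0 Pt u T ρ ζ z ≤ 1 := by
  classical
  unfold UU
  rw [← Finset.sum_div]
  refine div_le_one_of_le₀ ?_ (law_nonneg hp _ _)
  refine (sum_law_le (fun w => dbl_nonneg hp w) (F' := fun w : Ω × Ω => lam w.1) (v' := ζ)
    (fun w _ h1 _ => h1)).trans ?_
  exact le_of_eq ((dbl_fst hp).law lam ζ)

theorem UU_time (hp : ∀ ω, 0 ≤ p ω) (ζ : Λ) (V : Finset (ℤ × ℝ)) (t : ℤ) :
    ∑ z ∈ V with z.1 = t, UU p lam Y0 Pt u T ρ ζ z ≤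
      law p (fun ω => (lam ω, T ω)) (ζ, t) / law p lam ζ := by
  classical
  unfold UU
  rw [← Finset.sum_div]
  refine div_le_div_of_nonneg_right ?_ (law_nonneg hp _ _)
  refine (sum_law_le (fun w => dbl_nonneg hp w) (F' := fun w : Ω × Ω => (lam w.1, T w.1))
    (v' := (ζ, t)) (fun w _ h1 h2 => ?_)).trans ?_
  · have h3 : T w.1 = t := (Finset.mem_filter.mp h2).2
    rw [show lam w.1 = ζ from h1, h3]
  · exact le_of_eq ((dbl_fst hp).law (fun ω => (lam ω, T ω)) (ζ, t))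

/-- The energy of the line `ζ`, in the mean over the cells of the base time. -/
theorem line_energy (h : YSetup p lam b Y Y0 Pt u T x cell ρ E B G M θ Θ D η c₁) (ζ : Λ) :
    ∑ s ∈ Finset.Ico (0 : ℤ) (0 + (M : ℤ)),
      en θ M (SS p lam Pt u T ρ G ζ) (UU p lam Y0 Pt u T ρ ζ) s ≤
      4104 * Θ * (1 + Real.log M) / θ := by
  classical
  have hp := h.isl.nonneg
  have hM : (0 : ℝ) < M := by
    exact_mod_cast h.M1
  refine en_sum h.θ0 h.θ1 h.M1 le_rfl (A1 := 0) (fun z _ => UU_nonneg hp ζ z) (fun z hz => ?_)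
    (UU_sum hp ζ _) h.Θ0 (fun t => ?_)
  · unfold SS at hz
    obtain ⟨w, hw, rfl⟩ := Finset.mem_image.mp hz
    obtain ⟨-, h1, h2, h3⟩ := Finset.mem_filter.mp hw
    obtain ⟨⟨h4, h5⟩, -⟩ := h.time w.1 h2
    exact Finset.mem_Ico.mpr ⟨h4, by simpa using h5⟩
  · by_cases hne : ((SS p lam Pt u T ρ G ζ).filter fun z => z.1 = t).Nonempty
    · obtain ⟨z, hz⟩ := hne
      obtain ⟨hz1, hz2⟩ := Finset.mem_filter.mp hz
      unfold SS at hz1
      obtain ⟨w, hw, rfl⟩ := Finset.mem_image.mp hz1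
      obtain ⟨-, h1, h2, h3⟩ := Finset.mem_filter.mp hw
      have h4 : T w.1 = t := hz2
      refine (UU_time hp ζ _ t).trans ?_
      have h5 := h.densT w.1 h1 h2
      rw [h3, h4] at h5
      have h6 : 0 < law p lam ζ := by
        rw [← h3]
        exact law_pos hp lam h2
      rwa [div_le_iff₀ h6]
    · rw [Finset.not_nonempty_iff_eq_empty.mp hne, Finset.sum_empty]
      exact div_nonneg h.Θ0 hM.le

open Classical in
/-- The energy of the line `ζ` at the cell `s`, if there is a good place. -/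
noncomputable def hh (p : Ω → ℝ) (lam : Ω → Λ) (Y : Ω → υ) (Y0 : Ω → υ0) (Pt : Ω → γ)
    (u : Ω → μ) (T : Ω → ℤ) (cell : υ → ℤ) (ρ : Λ → γ → μ → ℝ) (G : Set Ω) (M : ℕ) (θ : ℝ)
    (ζ : Λ) (s : ℤ) : ℝ :=
  if ∃ o ∈ G, 0 < p o ∧ lam o = ζ ∧ cell (Y o) = s then
    en θ M (SS p lam Pt u T ρ G ζ) (UU p lam Y0 Pt u T ρ ζ) s else 0

/-- The energy of the walk, given the base label. -/
theorem walk_energy (h : YSetup p lam b Y Y0 Pt u T x cell ρ E B G M θ Θ D η c₁) (ω : Ω) :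
    (open Classical in ∑ j ∈ univ.image x,
      (law (rG (dbl p (fun ω => (Pt ω, Y ω))) (AA lam Pt u ρ B G θ))
        (fun w => ((b w.2, Y w.2), x w.2)) ((b ω, Y ω), j)) ^ 2) ≤
      D ^ 2 * (law p (fun ω => (b ω, Y ω)) (b ω, Y ω) *
        (open Classical in ∑ ζ ∈ univ.image lam,
          law p (fun ω => (lam ω, (b ω, Y ω))) (ζ, (b ω, Y ω)) *
            hh p lam Y Y0 Pt u T cell ρ G M θ ζ (cell (Y ω)))) := by
  classical
  have hp := h.isl.nonneg
  set Z : Ω → γ × υ := fun ω => (Pt ω, Y ω) with hZ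
  set A := AA lam Pt u ρ B G θ with hA
  have hd0 : ∀ w, 0 ≤ dbl p Z w := fun w => dbl_nonneg hp w
  have hpos : ∀ w, 0 < dbl p Z w → 0 < p w.1 ∧ 0 < p w.2 ∧ Pt w.1 = Pt w.2 ∧ Y w.1 = Y w.2 := by
    intro w hw
    obtain ⟨h3, h4, h5⟩ := (glue_pos_iff hp hp w).mp hw
    exact ⟨h3, h4, (Prod.ext_iff.1 h5).1, (Prod.ext_iff.1 h5).2⟩
  have hU0 := fun ζ z => UU_nonneg (lam := lam) (Y0 := Y0) (Pt := Pt) (u := u) (T := T) (ρ := ρ)
    hp ζ z
  have hhh : ∀ ζ s, 0 ≤ hh p lam Y Y0 Pt u T cell ρ G M θ ζ s := by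
    intro ζ s
    unfold hh
    split_ifs
    · exact en_nonneg (fun z _ => hU0 ζ z) s
    · exact le_rfl
  set x0 : Λ → β × υ → ℝ := fun ζ c =>
    if hex : ∃ o, 0 < p o ∧ lam o = ζ ∧ Y o = c.2 then (x hex.choose : ℝ) else 0 with hx0
  have key := marp_line (q := dbl p Z) hd0 A (fun w => lam w.1) (fun w => (b w.2, Y w.2))
    (fun c => cell c.2) (fun w => T w.1) (fun w => ρ (lam w.1) (Pt w.1) (u w.2))
    (fun w => x w.2) x0 (SS p lam Pt u T ρ G) (UU p lam Y0 Pt u T ρ)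
    (fun ζ c => law p (fun ω => (lam ω, (b ω, Y ω))) (ζ, c))
    (fun ζ c => hh p lam Y Y0 Pt u T cell ρ G M θ ζ (cell c.2)) (δ := θ) (κ := D) (M := M)
    h.D0 (fun ζ c => hhh ζ _) (fun ζ z _ => hU0 ζ z) (fun ζ c => law_nonneg hp _ _)
    (by
      intro w
      rw [image_fst (W := Ω) lam]
      refine le_of_eq ?_
      rw [(dbl_snd hp).law (fun ω => (b ω, Y ω)) (b w.2, Y w.2),
        law_split' p (fun ω => (b ω, Y ω)) lam (b w.2, Y w.2)])
    (by
      intro w hw hq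
      obtain ⟨h1, h2, h3, h4⟩ := hpos w hq
      unfold SS
      exact Finset.mem_image.mpr ⟨w, Finset.mem_filter.mpr ⟨Finset.mem_univ _, hw.1, h1, rfl⟩, rfl⟩)
    (fun w _ hq => hdom h w hq)
    (by
      intro w hw hq
      obtain ⟨h1, h2, h3, h4⟩ := hpos w hq
      unfold hh
      rw [if_pos ⟨w.1, hw.1, h1, rfl, by rw [h4]⟩])
    (by
      intro w hw hq
      obtain ⟨h1, h2, h3, h4⟩ := hpos w hq
      obtain ⟨w1, w2, w3⟩ := hw
      obtain ⟨⟨t1, t2⟩, -⟩ := h.time w.1 h1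
      obtain ⟨-, t3, t4⟩ := h.time w.2 h2
      refine ⟨w3, ?_, ?_⟩
      · have a1 : (0 : ℝ) ≤ T w.1 := by exact_mod_cast t1
        have a2 : (T w.1 : ℝ) < M := by exact_mod_cast t2
        have a3 : (0 : ℝ) ≤ cell (Y w.2) := by exact_mod_cast t3
        have a4 : (cell (Y w.2) : ℝ) < M := by exact_mod_cast t4
        rw [abs_le]
        constructor <;> linarith
      · have hex : ∃ o, 0 < p o ∧ lam o = lam w.1 ∧ Y o = Y w.2 := ⟨w.1, h1, rfl, h4⟩
        have e1 : x0 (lam w.1) (b w.2, Y w.2) = x w.1 := by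
          simp only [hx0]
          rw [dif_pos hex]
          have h5 := hex.choose_spec
          have h6 := (h.line hex.choose w.1 h5.1 h1 h5.2.1 (h5.2.2.trans h4.symm)).2
          exact_mod_cast h6
        rw [e1]
        have h5 := h.geo w.1 w1 w.2 w2 h1 h2 h3 h4 w3
        rw [h4] at h5
        exact h5) (ω, ω)
  rw [image_fst (W := Ω) lam] at key
  have e2 : (univ : Finset (Ω × Ω)).image (fun w => x w.2) = univ.image x := image_snd x
  rw [e2, (dbl_snd hp).law (fun ω => (b ω, Y ω)) (b (ω, ω).2, Y (ω, ω).2)] at key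
  exact key

/-- The mean energy of the base places, given the base label. -/
theorem total_energy (h : YSetup p lam b Y Y0 Pt u T x cell ρ E B G M θ Θ D η c₁) :
    (open Classical in ∑ c ∈ univ.image (fun ω => (b ω, Y ω)), (∑ j ∈ univ.image x,
      (law (rG p E) (fun ω => ((b ω, Y ω), x ω)) (c, j)) ^ 2) / law p (fun ω => (b ω, Y ω)) c) ≤
      (D / (η * c₁)) ^ 2 * (Θ / M * (4104 * Θ * (1 + Real.log M) / θ)) := by
  classical
  have hp := h.isl.nonneg
  have hM : (0 : ℝ) < M := by exact_mod_cast h.M1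
  have hη := h.η0
  have hc := h.c0
  have hlog : 0 ≤ Real.log M := Real.log_nonneg (by exact_mod_cast h.M1)
  set s : Ω → β × υ := fun ω => (b ω, Y ω) with hs
  set H := hh p lam Y Y0 Pt u T cell ρ G M θ with hH
  have hU0 := fun ζ z => UU_nonneg (lam := lam) (Y0 := Y0) (Pt := Pt) (u := u) (T := T) (ρ := ρ)
    hp ζ z
  have hH0 : ∀ ζ s, 0 ≤ H ζ s := by
    intro ζ s
    rw [hH]
    unfold hh
    split_ifs
    · exact en_nonneg (fun z _ => hU0 ζ z) s
    · exact le_rfl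
  -- one label
  have h1 : ∀ c ∈ univ.image s, (∑ j ∈ univ.image x,
      (law (rG p E) (fun ω => ((b ω, Y ω), x ω)) (c, j)) ^ 2) / law p s c ≤
      (D / (η * c₁)) ^ 2 * ∑ ζ ∈ univ.image lam,
        law p (fun ω => (lam ω, s ω)) (ζ, c) * H ζ (cell c.2) := by
    intro c hc'
    obtain ⟨ω, -, rfl⟩ := Finset.mem_image.mp hc'
    have hS0 : 0 ≤ ∑ ζ ∈ univ.image lam,
        law p (fun ω => (lam ω, s ω)) (ζ, s ω) * H ζ (cell (s ω).2) :=
      Finset.sum_nonneg fun ζ _ => mul_nonneg (law_nonneg hp _ _) (hH0 _ _)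
    rcases (law_nonneg hp s (s ω)).eq_or_lt with h0 | h0
    · rw [← h0, div_zero]
      exact mul_nonneg (sq_nonneg _) hS0
    rw [div_le_iff₀ h0]
    have h2 : ∀ j ∈ univ.image x, (law (rG p E) (fun ω => ((b ω, Y ω), x ω)) (s ω, j)) ^ 2 ≤
        (1 / (η * c₁)) ^ 2 * (law (rG (dbl p (fun ω => (Pt ω, Y ω))) (AA lam Pt u ρ B G θ))
        (fun w => ((b w.2, Y w.2), x w.2)) (s ω, j)) ^ 2 := by
      intro j _
      have k1 := reach1 h (s ω) j
      have k2 := reach2 h (s ω) j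
      have k3 : η * c₁ * law (rG p E) (fun ω => ((b ω, Y ω), x ω)) (s ω, j) ≤
          law (rG (dbl p (fun ω => (Pt ω, Y ω))) (AA lam Pt u ρ B G θ))
            (fun w => ((b w.2, Y w.2), x w.2)) (s ω, j) := by
        have := mul_le_mul_of_nonneg_left k1 hc.le
        linarith
      rw [← mul_pow]
      refine pow_le_pow_left₀ (law_nonneg (rG_nonneg hp E) _ _) ?_ 2
      rw [one_div, inv_mul_eq_div, le_div_iff₀ (mul_pos hη hc)]
      linarith
    calc ∑ j ∈ univ.image x, (law (rG p E) (fun ω => ((b ω, Y ω), x ω)) (s ω, j)) ^ 2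
        ≤ ∑ j ∈ univ.image x, (1 / (η * c₁)) ^ 2 *
          (law (rG (dbl p (fun ω => (Pt ω, Y ω))) (AA lam Pt u ρ B G θ))
            (fun w => ((b w.2, Y w.2), x w.2)) (s ω, j)) ^ 2 := Finset.sum_le_sum h2
      _ = (1 / (η * c₁)) ^ 2 * ∑ j ∈ univ.image x,
          (law (rG (dbl p (fun ω => (Pt ω, Y ω))) (AA lam Pt u ρ B G θ))
            (fun w => ((b w.2, Y w.2), x w.2)) (s ω, j)) ^ 2 := by rw [Finset.mul_sum]
      _ ≤ (1 / (η * c₁)) ^ 2 * (D ^ 2 * (law p s (s ω) * ∑ ζ ∈ univ.image lam,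
            law p (fun ω => (lam ω, s ω)) (ζ, s ω) * H ζ (cell (s ω).2))) :=
          mul_le_mul_of_nonneg_left (walk_energy h ω) (sq_nonneg _)
      _ = _ := by
          rw [div_pow, div_pow]
          ring
  refine (Finset.sum_le_sum h1).trans ?_
  rw [← Finset.mul_sum]
  refine mul_le_mul_of_nonneg_left ?_ (sq_nonneg _)
  -- all labels
  have e1 : ∑ c ∈ univ.image s, ∑ ζ ∈ univ.image lam,
        law p (fun ω => (lam ω, s ω)) (ζ, c) * H ζ (cell c.2) =
      ∑ ω, p ω * H (lam ω) (cell (Y ω)) := by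
    rw [Finset.sum_comm, ← Finset.sum_product']
    symm
    exact sum_fib (g := p) (Z := fun ω => (lam ω, s ω)) (V := univ.image lam ×ˢ univ.image s)
      (fun w _ => Finset.mem_product.mpr ⟨Finset.mem_image_of_mem _ (Finset.mem_univ w),
        Finset.mem_image_of_mem _ (Finset.mem_univ w)⟩) (fun v => H v.1 (cell v.2.2))
  have e2 : ∑ ω, p ω * H (lam ω) (cell (Y ω)) =
      ∑ ζ ∈ univ.image lam, ∑ t ∈ Finset.Ico (0 : ℤ) (0 + (M : ℤ)),
        law p (fun ω => (lam ω, cell (Y ω))) (ζ, t) * H ζ t := by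
    rw [← Finset.sum_product']
    refine sum_fib (g := p) (Z := fun ω => (lam ω, cell (Y ω)))
      (V := univ.image lam ×ˢ Finset.Ico (0 : ℤ) (0 + (M : ℤ)))
      (fun w hw => Finset.mem_product.mpr ⟨Finset.mem_image_of_mem _ (Finset.mem_univ w), ?_⟩)
      (fun v => H v.1 v.2)
    have h0 : 0 < p w := lt_of_le_of_ne (hp w) (Ne.symm hw)
    obtain ⟨-, h2, h3⟩ := h.time w h0
    exact Finset.mem_Ico.mpr ⟨h2, by simpa using h3⟩
  rw [e1, e2]
  calc ∑ ζ ∈ univ.image lam, ∑ t ∈ Finset.Ico (0 : ℤ) (0 + (M : ℤ)),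
        law p (fun ω => (lam ω, cell (Y ω))) (ζ, t) * H ζ t
      ≤ ∑ ζ ∈ univ.image lam, ∑ t ∈ Finset.Ico (0 : ℤ) (0 + (M : ℤ)),
        Θ / M * law p lam ζ * en θ M (SS p lam Pt u T ρ G ζ) (UU p lam Y0 Pt u T ρ ζ) t := by
        refine Finset.sum_le_sum fun ζ _ => Finset.sum_le_sum fun t _ => ?_
        have hen : 0 ≤ en θ M (SS p lam Pt u T ρ G ζ) (UU p lam Y0 Pt u T ρ ζ) t :=
          en_nonneg (fun z _ => hU0 ζ z) t
        rw [hH]
        unfold hh
        split_ifs with hex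
        · obtain ⟨o, ho, h2, h3, h4⟩ := hex
          have h5 := h.densS o ho h2
          rw [h3, h4] at h5
          exact mul_le_mul_of_nonneg_right h5 hen
        · rw [mul_zero]
          exact mul_nonneg (mul_nonneg (div_nonneg h.Θ0 hM.le) (law_nonneg hp _ _)) hen
    _ = ∑ ζ ∈ univ.image lam, law p lam ζ * (Θ / M *
          ∑ t ∈ Finset.Ico (0 : ℤ) (0 + (M : ℤ)),
            en θ M (SS p lam Pt u T ρ G ζ) (UU p lam Y0 Pt u T ρ ζ) t) := by
        refine Finset.sum_congr rfl fun ζ _ => ?_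
        rw [Finset.mul_sum, Finset.mul_sum]
        refine Finset.sum_congr rfl fun t _ => ?_
        ring
    _ ≤ ∑ ζ ∈ univ.image lam, law p lam ζ * (Θ / M * (4104 * Θ * (1 + Real.log M) / θ)) := by
        refine Finset.sum_le_sum fun ζ _ => ?_
        exact mul_le_mul_of_nonneg_left (mul_le_mul_of_nonneg_left (line_energy h ζ)
          (div_nonneg h.Θ0 hM.le)) (law_nonneg hp _ _)
    _ = _ := by
        rw [← Finset.sum_mul, sum_law_image, h.isl.sum_one, one_mul]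

/-- Pointwise certificates given the context and the exact base label. -/
theorem mary_thm (h : YSetup p lam b Y Y0 Pt u T x cell ρ E B G M θ Θ D η c₁) {lb τ : ℝ}
    (hl : 0 < lb) (hτ : 0 < τ) :
    Pr p {w | w ∈ E ∧ lb * law p (fun ω => (b ω, Y ω)) (b w, Y w) <
      law p (fun ω => ((b ω, Y ω), x ω)) ((b w, Y w), x w)} ≤
      τ + 4104 * (D / (η * c₁)) ^ 2 * Θ ^ 2 * (1 + Real.log M) / (θ * M * (lb * τ)) := by
  classical
  have hp := h.isl.nonneg
  have hM : (0 : ℝ) < M := by exact_mod_cast h.M1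
  have hθ := h.θ0
  have key := cert_avg hp E (fun ω => (b ω, Y ω)) x
    (e := (D / (η * c₁)) ^ 2 * (Θ / M * (4104 * Θ * (1 + Real.log M) / θ))) hl hτ
    (by convert total_energy h)
  refine key.trans (le_of_eq ?_)
  rw [h.isl.sum_one, mul_one]
  congr 1
  field_simp

end Pool.MARY
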